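import Mathlib
import Pool.Agent.Q170.GP.Wet

set_option autoImplicit false

/-!
# Orbits converging to a cycle: statements (project EC)

THEOREM. Let `Φ` be an endomorphism of `ℙ^N` over `ℂ`, `V` closed such that for every `k ≥ 1` only
finitely many points `x` have `Φ^(kn)(x) ∈ V` for all `n` (`V` contains no periodic subvariety of positive
dimension). Suppose that at the periodic points `x = Φ^l(x)` in `V` the number `0` is at most a SIMPLE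
eigenvalue of the derivative of `Φ^l` (no condition that `Φ` is étale anywhere; in `ℙ^2`: the derivative
is not nilpotent). Then every return set `{n | Φ^n(α) ∈ V}` is the union of finitely many progressions and a
set which is sparse like the sequence of the iterated exponentials.

Known (helper170, `Pool.Agent.Q170.GP`): for a suitable `p` the orbit is near a limit orbit `β`,
`Φ^(t + K n)(α) = Φ^(K n)(β) + O(p^n)`, and either the gap lemma applies or the limit orbit stays in `V`;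
then (first hypothesis) `β` is preperiodic, so a subsequence `Y n` of the orbit converges to a
point `γ`, fixed by an iterate `f` of `Φ`.

Plan. `w n` is the vector of the affine coordinates of `Y n` with centre `γ` (a tuple of `p`-adic numbers),
`|w n| ≤ σ^n`, and `u(w n) * w (n+1) = g(w n)` with polynomials `u, g`, `g(0) = 0`, `u(0) ≠ 0` (structure `Orb`).
(1) `w n` is an exponential polynomial up to `O(σ^(k n))`, for every `k` (`WEO`), by induction on `k`: the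
nonlinear part of the recursion gains a factor `σ^n`, and a linear recursion is solved by the theorem of
Cayley-Hamilton; no inverse of the linear part is needed. (2) Therefore (`DC1`) there is `m` such that for
every polynomial `G` and every class `c` modulo `m` either the gap lemma applies to the zeros of
`G(w (c + m n))`, or this sequence is superexponentially small. (3) If all equations of `V` are
superexponentially small along a class then (`IDL`) the ideal of all forms with this property is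
invariant under substitution of `f^m`, its zero set is in `V` and invariant, so finite, and by the
Nullstellensatz the orbit itself converges superexponentially to `γ`. (4) Then (`DC2`), as the
generalised kernel of the linear part has dimension at most one, `w n` is for every `k` a polynomial in ONE
coordinate `t n` up to `O(|t n|^k)`. So every `G(w n)` is either not `0` for large `n`, or
`O(|t n|^k)` for all `k`. The second case for all equations of `V` is impossible, again by `IDL`.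
-/

namespace Pool.Agent.Q256.EC

open MvPolynomial Topology
open Filter (Tendsto atTop)
open Pool.Agent.H936R2 (pt jac)
open Pool.Agent.Q170.GP (GapP tht Prim Sparse)

/-! ## Definitions -/

/-- Exponential polynomials: the span of the sequences `μ^n n^i`, `μ ≠ 0`. -/
def Ex (K : Type) [Field K] : Submodule K (ℕ → K) :=
  Submodule.span K {s | ∃ μ : K, μ ≠ 0 ∧ ∃ i : ℕ, s = fun n : ℕ => μ ^ n * (n : K) ^ i}

/-- `s` is an exponential polynomial up to `O(ρ^n)`. -/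
def We {K : Type} [NormedField K] (ρ : ℝ) (s : ℕ → K) : Prop :=
  ∃ e ∈ Ex K, ∃ C : ℝ, ∀ n, ‖s n - e n‖ ≤ C * ρ ^ n

/-- An orbit of the rational map `g / u`, which has the fixed point `0`. -/
structure Orb {K : Type} [NormedField K] {ι : Type} [Fintype ι] (g : ι → MvPolynomial ι K)
    (u : MvPolynomial ι K) (w : ℕ → ι → K) : Prop where
  g0 : ∀ i, constantCoeff (g i) = 0
  u0 : constantCoeff u ≠ 0
  step : ∀ n i, eval (w n) u * w (n + 1) i = eval (w n) (g i)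
  unit : ∀ n, ‖eval (w n) u‖ = 1
  le : ∀ n, ‖w n‖ ≤ 1

/-- The linear part. -/
noncomputable def lin {K : Type} [Field K] {ι : Type} (g : ι → MvPolynomial ι K) : Matrix ι ι K :=
  Matrix.of fun i j => coeff (Finsupp.single j 1) (g i)

/-- The differences of order `i` are `O(q^i)`. -/
def An {K : Type} [NormedField K] (q : ℝ) (g : ℕ → K) : Prop :=
  ∃ C : ℝ, ∀ i n, ‖(fwdDiff 1)^[i] g n‖ ≤ C * q ^ i

open Classical in
/-- An element of norm `r`, if there is one. -/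
noncomputable def piK (K : Type) [NormedField K] (r : ℝ) : K :=
  if h : ∃ x : K, ‖x‖ = r then h.choose else 1

/-- `a` is a polynomial in `t` up to `O(|t|^k)`. -/
def Te {K : Type} [NormedField K] (t : ℕ → K) (k : ℕ) (a : ℕ → K) : Prop :=
  ∃ (φ : Polynomial K) (C : ℝ), ∀ n, ‖a n - φ.eval (t n)‖ ≤ C * ‖t n‖ ^ k

/-- Superexponentially small sequences. -/
def Sm1 (σ : ℝ) : Set (ℕ → ℝ) := {a | ∀ k : ℕ, ∃ C : ℝ, ∀ n, |a n| ≤ C * (σ ^ k) ^ n}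

/-- Sequences which are `O(δ^k)` for all `k`. -/
def Sm2 (δ : ℕ → ℝ) : Set (ℕ → ℝ) := {a | ∀ k : ℕ, ∃ C : ℝ, ∀ n, |a n| ≤ C * δ n ^ k}

/-- A class of small sequences. -/
structure Small (Sm : Set (ℕ → ℝ)) : Prop where
  zero : (fun _ => 0) ∈ Sm
  add : ∀ a ∈ Sm, ∀ b ∈ Sm, (fun n => a n + b n) ∈ Sm
  smul : ∀ a ∈ Sm, ∀ c : ℝ, 0 ≤ c → (fun n => c * a n) ∈ Sm
  dom : ∀ a ∈ Sm, ∀ b : ℕ → ℝ, (∀ n, 0 ≤ b n) → (∀ᶠ n in atTop, b n ≤ a n) → b ∈ Sm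
  shift : ∀ a ∈ Sm, (fun n => a (n + 1)) ∈ Sm

/-- The distance of two points of the projective space (for primitive vectors). -/
noncomputable def dl {p : ℕ} [Fact p.Prime] {N : ℕ} (y γ : Fin (N + 1) → ℤ_[p]) : ℝ :=
  ‖fun q : Fin (N + 1) × Fin (N + 1) => y q.1 * γ q.2 - y q.2 * γ q.1‖

/-- Sets of numbers for which on all classes modulo all multiples of `K0` one of the alternatives
of the definition (all elements, or the gap lemma) holds. -/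
def GG (p : ℕ) (S : Set ℕ) : Prop :=
  ∃ K0 : ℕ, 0 < K0 ∧ ∀ K : ℕ, 0 < K → K0 ∣ K → ∃ a : ℕ, ∀ j, a ≤ j →
    (∀ n, j + K * n ∈ S) ∨ ∃ μ, GapP p μ {n | j + K * n ∈ S}

/-- The polynomials of the `k`-th iterate. -/
noncomputable def itF {R ι : Type} [CommRing R] (F : ι → MvPolynomial ι R) (k : ℕ) :
    ι → MvPolynomial ι R := fun i => (bind₁ F)^[k] (X i)

/-! ## Exponential polynomials -/

/-- **JOB EXM** (0.5 h), `theorem exm : S_EXM`. PROOF. All three: the condition is linear in `a` (and `b`), so by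
`Submodule.span_induction` it is enough to treat the generators. `μ^n n^i ν^n n^j = (μν)^n n^(i+j)`;
`μ^(n+1) (n+1)^i = ∑ j ≤ i, μ (i choose j) μ^n n^j`; `c = c 1^n n^0`. -/
def S_EXM : Prop :=
  ∀ (K : Type) [Field K] (a b : ℕ → K), a ∈ Ex K → b ∈ Ex K →
    (fun n => a n * b n) ∈ Ex K ∧ (fun n => a (n + 1)) ∈ Ex K ∧ ∀ c : K, (fun _ => c) ∈ Ex K

/-- **JOB EXS** (0.7 h), `theorem exs : S_EXS`. Solution of a recursion in exponential polynomials. PROOF. The set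
of the `s` for which there is such an `x` is a submodule, so we need it for `s = μ^n n^i`; induction on `i`
(strong). Put `D x n = x (n+1) - c * x n`. If `c ≠ μ`: `D (μ^n n^i) = (μ - c) μ^n n^i + μ ∑ j < i, (i choose j) μ^n n^j`
and the terms of the sum are of the form `D x` by induction. If `c = μ`: `D (μ^n n^(i+1)) =
μ (i+1) μ^n n^i + μ ∑ j < i, (i+1 choose j) μ^n n^j`, and `μ (i+1) ≠ 0`. -/
def S_EXS : Prop :=
  ∀ (K : Type) [Field K] [CharZero K] (c : K) (s : ℕ → K), s ∈ Ex K →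
    ∃ x ∈ Ex K, ∀ n, x (n + 1) - c * x n = s n

/-- **JOB WED** (0.8 h), `theorem wed : S_EXS → S_WED`. PROOF. `s (n+1) - c * s n = e n + r n`, `e ∈ Ex K`,
`‖r n‖ ≤ C ρ^n`. Let `x (n+1) - c * x n = e n`, `x ∈ Ex K` (EXS) and `d = s - x`: `d (n+1) = c * d n + r n`. If
`‖c‖ ≤ ρ`: `‖d n‖ ≤ max ‖d 0‖ (C/ρ) ρ^n` by induction (the norm is nonarchimedean). If `‖c‖ > ρ`: the sequence
`c^(-n) d n` has differences `c^(-n-1) r n`, of norm `≤ C/‖c‖ (ρ/‖c‖)^n`, which tend to `0` geometrically, so it has a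
limit `v` (completeness) and `‖c^(-n) d n - v‖ ≤ C/‖c‖ (ρ/‖c‖)^n` (nonarchimedean), i.e.
`‖d n - v c^n‖ ≤ C/‖c‖ ρ^n`; `v c^n` is in `Ex K`. -/
def S_WED : Prop :=
  ∀ (K : Type) [NormedField K] [CompleteSpace K] [IsUltrametricDist K] [CharZero K] (ρ : ℝ) (c : K)
    (s : ℕ → K), 0 < ρ → We ρ (fun n => s (n + 1) - c * s n) → We ρ s

/-- **JOB WEL** (1 h), `theorem wel : S_EXM → S_WED → S_WEL`. PROOF. `W = {s | We ρ s}` is a submodule of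
`ℕ → K`, and with `T s n = c * s (n+1)` (a linear map) `T s ∈ W` for `s ∈ W` (EXM). (1) For every
`q ∈ K[X]` and `i`: `aeval T q (w i) - ∑ j, (aeval M q) i j • w j ∈ W`: true for constants, additive, and from
`q` to `q X` (apply `T` to the statement for `q` and use the hypothesis for `T (w j)`, or the other order of
multiplication). With `q = M.charpoly`, `aeval M q = 0` (`Matrix.aeval_self_charpoly`), `aeval T q (w i) ∈ W`. (2) If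
`q ≠ 0` splits and `aeval T q y ∈ W` then `y ∈ W`: `q = C a ∏ (X - λ)`, induction on the multiset of the roots:
`aeval T (X - λ) z = c z(n+1) - λ z(n) = c (z(n+1) - (λ/c) z(n)) ∈ W` implies `z ∈ W` by WED. -/
def S_WEL : Prop :=
  ∀ (K : Type) [NormedField K] [CompleteSpace K] [IsUltrametricDist K] [CharZero K] (ι : Type)
    [Fintype ι] [DecidableEq ι] (M : Matrix ι ι K) (c : K) (ρ : ℝ) (w : ι → ℕ → K), 0 < ρ → c ≠ 0 →
    M.charpoly.Splits → (∀ i, We ρ (fun n => c * w i (n + 1) - ∑ j, M i j * w j n)) →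
    ∀ i, We ρ (w i)

/-- **JOB WEM** (0.6 h), `theorem wem : S_EXM → S_WEM`. PROOF. Sums, multiples and monotonicity are clear. Product:
`a = e + r`, `b = f + s`, `‖r n‖ ≤ C ρ^n`, `‖s n‖ ≤ C' ρ'^n`. `a b - e f = a s + r f`, `‖a s‖ ≤ A C' (σ ρ')^n ≤ A C' τ^n`,
`‖f n‖ ≤ ‖b n‖ + ‖s n‖ ≤ (B + C') σ'^n`, `‖r f‖ ≤ C (B + C') (ρ σ')^n`. (All constants are `≥ 0` or the sequences are
`0`; replace `C` by `max C 0`.) -/
def S_WEM : Prop :=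
  ∀ (K : Type) [NormedField K],
    (∀ (ρ : ℝ) (a b : ℕ → K), We ρ a → We ρ b → We ρ (fun n => a n + b n)) ∧
    (∀ (ρ : ℝ) (c : K) (a : ℕ → K), We ρ a → We ρ (fun n => c * a n)) ∧
    (∀ (ρ ρ' : ℝ) (a : ℕ → K), 0 ≤ ρ → ρ ≤ ρ' → We ρ a → We ρ' a) ∧
    (∀ (ρ : ℝ) (c : K), We ρ (fun _ => c)) ∧
    (∀ (ρ C : ℝ) (a : ℕ → K), (∀ n, ‖a n‖ ≤ C * ρ ^ n) → We ρ a) ∧
    ∀ (ρ ρ' σ σ' τ A B : ℝ) (a b : ℕ → K), 0 ≤ ρ → 0 ≤ ρ' → 0 ≤ σ → ρ' ≤ σ' → σ * ρ' ≤ τ →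
      ρ * σ' ≤ τ → (∀ n, ‖a n‖ ≤ A * σ ^ n) → (∀ n, ‖b n‖ ≤ B * σ' ^ n) → We ρ a → We ρ' b →
      We τ (fun n => a n * b n)

/-- **JOB WEV** (1 h), `theorem wev : S_WEM → S_WEV`. PROOF. Claim: for a monomial `M` of degree `d ≥ 1` the sequence
`M(w n)` is `≤ C' σ^(d n)` in norm and satisfies `We (σ^(k + d - 1))`. Induction on `d` with the product rule of WEM:
`d = 1` is the hypothesis; `M = X i * M'`, `a = w i` (`ρ = σ^k`, `‖a‖ ≤ C σ^n`), `b = M'(w)`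
(`ρ' = σ^(k+d'-1) ≤ σ' = σ^d'`), `σ ρ' = ρ σ' = σ^(k+d')`. Constants satisfy `We ρ` for all `ρ`. `G` is the sum of its
monomials with coefficients; `k + d - 1 ≥ k`, and `≥ k + 1` if `d ≥ 2` (`mem_pow_idealOfVars_iff`: the monomials of
`G ∈ idealOfVars^2` have degree `≥ 2`). -/
def S_WEV : Prop :=
  ∀ (K : Type) [NormedField K] (ι : Type) [Fintype ι] (σ C : ℝ) (k : ℕ) (w : ℕ → ι → K), 0 < σ →
    σ ≤ 1 → 1 ≤ k → (∀ n, ‖w n‖ ≤ C * σ ^ n) → (∀ i, We (σ ^ k) (fun n => w n i)) →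
    ∀ G : MvPolynomial ι K, We (σ ^ k) (fun n => eval (w n) G) ∧
      (G ∈ idealOfVars ι K ^ 2 → We (σ ^ (k + 1)) (fun n => eval (w n) G))

/-! ## The recursion -/

/-- **JOB POL** (0.7 h), `theorem pol : S_POL`. PROOF. First part: `P` is the sum of `coeff κ P * x^κ`, `κ` in the
support, `|κ| ≥ k` (`mem_pow_idealOfVars_iff`), `‖x^κ‖ ≤ ‖x‖^|κ| ≤ ‖x‖^k`, `C = ∑ ‖coeff κ P‖`. Second part: for
monomials by induction on the degree (`x_i M(x) - y_i M(y) = x_i (M(x) - M(y)) + (x_i - y_i) M(y)`). -/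
def S_POL : Prop :=
  ∀ (K : Type) [NormedField K] (ι : Type) [Fintype ι] (P : MvPolynomial ι K),
    (∀ k : ℕ, P ∈ idealOfVars ι K ^ k → ∃ C : ℝ, 0 ≤ C ∧ ∀ x : ι → K, ‖x‖ ≤ 1 →
      ‖eval x P‖ ≤ C * ‖x‖ ^ k) ∧
    ∃ C : ℝ, 0 ≤ C ∧ ∀ x y : ι → K, ‖x‖ ≤ 1 → ‖y‖ ≤ 1 → ‖eval x P - eval y P‖ ≤ C * ‖x - y‖

/-- **JOB RAT** (0.8 h), `theorem rat : S_RAT`. PROOF. `c = constantCoeff u ≠ 0`, `𝔪 = idealOfVars`. `u' = 1 - C c⁻¹ * u ∈ 𝔪`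
and `v = C c⁻¹ * ∑ j < k+1, u'^j`, so `u v = 1 - u'^(k+1)`. `R = C c * g * v`: `C c * g - u R = C c * g * u'^(k+1) ∈ 𝔪^k`.
`g - ∑ j, C (coeff (single j 1) g) X j ∈ 𝔪^2` (coefficients, `mem_pow_idealOfVars_iff'`), and `v - C c⁻¹ ∈ 𝔪`, `g ∈ 𝔪`,
so `R - g ∈ 𝔪^2`; `Q = R - ∑ j, C (coeff (single j 1) g) X j ∈ 𝔪^2`. -/
def S_RAT : Prop :=
  ∀ (K : Type) [Field K] (ι : Type) [Fintype ι] [DecidableEq ι] (g u : MvPolynomial ι K),
    constantCoeff g = 0 → constantCoeff u ≠ 0 → ∀ k : ℕ, ∃ Q ∈ idealOfVars ι K ^ 2,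
      C (constantCoeff u) * g - u * (∑ j, C (coeff (Finsupp.single j 1) g) * X j + Q) ∈
        idealOfVars ι K ^ k

/-- **JOB ORB** (0.6 h), `theorem orb : S_POL → S_RAT → S_ORB`. PROOF. RAT for `g i` and `k`, evaluated at `w n`:
`u0 * g_i(w n) - u(w n) (∑ j, lin g i j * w n j + Q_i(w n))` is at most `C ‖w n‖^k` (POL), and
`g_i(w n) = u(w n) * w (n+1) i`, `‖u(w n)‖ = 1`. Second part: `‖w (n+1) i‖ = ‖g_i(w n)‖ ≤ D ‖w n‖` (POL, `g i ∈ idealOfVars^1`). -/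
def S_ORB : Prop :=
  ∀ (K : Type) [NormedField K] (ι : Type) [Fintype ι] [DecidableEq ι] (g : ι → MvPolynomial ι K)
    (u : MvPolynomial ι K) (w : ℕ → ι → K), Orb g u w →
    (∀ k : ℕ, ∃ Q : ι → MvPolynomial ι K, (∀ i, Q i ∈ idealOfVars ι K ^ 2) ∧ ∃ C : ℝ, 0 ≤ C ∧
      ∀ n i, ‖constantCoeff u * w (n + 1) i - ∑ j, lin g i j * w n j - eval (w n) (Q i)‖ ≤
        C * ‖w n‖ ^ k) ∧
    ∃ D : ℝ, 0 ≤ D ∧ ∀ n, ‖w (n + 1)‖ ≤ D * ‖w n‖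

/-- **JOB WEO** (0.7 h), `theorem weo : S_ORB → S_WEL → S_WEM → S_WEV → S_WEO`. PROOF. Induction on `k`. `k = 1`:
`‖w n i‖ ≤ C σ^n` (WEM, fifth part). From `k` to `k+1`: ORB with `k+1`: `u0 * w (n+1) i - ∑ j, lin g i j * w n j` is
`Q_i(w n)`, which satisfies `We (σ^(k+1))` by WEV, up to `C' ‖w n‖^(k+1) ≤ C'' (σ^(k+1))^n`; so it satisfies
`We (σ^(k+1))` and WEL applies with `M = lin g`, `c = u0`. -/
def S_WEO : Prop :=
  ∀ (K : Type) [NormedField K] [CompleteSpace K] [IsUltrametricDist K] [CharZero K] (ι : Type)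
    [Fintype ι] [DecidableEq ι] (g : ι → MvPolynomial ι K) (u : MvPolynomial ι K) (w : ℕ → ι → K),
    Orb g u w → (lin g).charpoly.Splits → ∀ σ C : ℝ, 0 < σ → σ ≤ 1 → (∀ n, ‖w n‖ ≤ C * σ ^ n) →
    ∀ k : ℕ, 1 ≤ k → ∀ i, We (σ ^ k) (fun n => w n i)

/-! ## The first alternative -/

/-- **JOB UNP** (0.7 h), `theorem unp : S_UNP`. PROOF. The sphere `‖x‖ = 1` is compact (`ProperSpace`), so it is covered by
finitely many, say `N`, balls of radius `q`. Let `‖x‖ = 1`. Two of `x^0, ..., x^N` are in the same ball, `x^i` and `x^j`,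
`i < j`: `‖x^j - x^i‖ ≤ q` (nonarchimedean), so `‖x^(j-i) - 1‖ ≤ q`. `m = N!` is a multiple of `j - i`, and
`‖y^l - 1‖ ≤ ‖y - 1‖` for `‖y‖ ≤ 1` (geometric sum). -/
def S_UNP : Prop :=
  ∀ (K : Type) [NormedField K] [ProperSpace K] [IsUltrametricDist K] (q : ℝ), 0 < q →
    ∃ m : ℕ, 0 < m ∧ ∀ x : K, ‖x‖ = 1 → ‖x ^ m - 1‖ ≤ q

/-- **JOB ANM** (0.8 h), `theorem anm : S_ANM`. PROOF. Product: `Δ(f g)(n) = f(n+1) Δg(n) + Δf(n) g(n)`, so by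
induction on `i`: for all `f, g` with `‖Δ^a f(n)‖ ≤ C q^a`, `‖Δ^b g(n)‖ ≤ C' q^b` for all `a, b, n` one has
`‖Δ^i (f g)(n)‖ ≤ C C' q^i` (`f(·+1)` and `g` satisfy the same bounds, `Δf` satisfies them with `C q`, `Δg` with `C' q`;
nonarchimedean). Powers: `Δ^i (x^n) = (x - 1)^i x^n`. -/
def S_ANM : Prop :=
  ∀ (K : Type) [NormedField K] [IsUltrametricDist K] (q : ℝ), 0 < q →
    (∀ f g : ℕ → K, An q f → An q g → An q (fun n => f n + g n)) ∧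
    (∀ f g : ℕ → K, An q f → An q g → An q (fun n => f n * g n)) ∧
    (∀ c : K, An q (fun _ => c)) ∧
    ∀ x : K, ‖x‖ ≤ 1 → ‖x - 1‖ ≤ q → An q (fun n => x ^ n)

/-- **JOB ANP** (0.4 h), `theorem anp : S_ANM → S_ANP`. PROOF. `f n = c + m n` has `‖f n‖ ≤ 1`, `Δf = m`, `‖m‖ ≤ 1`, `Δ^2 f = 0`
(`IsUltrametricDist.norm_natCast_le_one`), so `An q f` with the constant `1/q`; powers by induction. -/
def S_ANP : Prop :=
  ∀ (K : Type) [NormedField K] [IsUltrametricDist K] (q : ℝ), 0 < q → q ≤ 1 → ∀ c m i : ℕ,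
    An q (fun n => (((c + m * n : ℕ) : K)) ^ i)

/-- **JOB EXC** (1 h), `theorem exc : S_ANM → S_ANP → S_EXC`. PROOF. Span induction. Generator `e n = μ^n n^i`: `r = ‖μ‖`,
`T = {r}`, `b r n = μ^c * ((μ/piK K r)^m)^n * ((c + m n : ℕ) : K)^i`, `b r' = 0` for `r' ≠ r`; `‖μ/piK K r‖ = 1`, so
`‖(μ/piK K r)^m - 1‖ ≤ q` and `An q (b r)` by ANM, ANP. Sums: `T ∪ T'`, `b + b'` (by the third property the sums over `T`
and `T'` are sums over `T ∪ T'`). Multiples and `0` are clear. -/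
def S_EXC : Prop :=
  ∀ (K : Type) [NormedField K] [IsUltrametricDist K] (q : ℝ) (m : ℕ), 0 < q → q ≤ 1 → 0 < m →
    (∀ x : K, ‖x‖ = 1 → ‖x ^ m - 1‖ ≤ q) → ∀ e ∈ Ex K, ∀ c : ℕ,
    ∃ (T : Finset ℝ) (b : ℝ → ℕ → K), (∀ r ∈ T, 0 < r ∧ ‖piK K r‖ = r) ∧ (∀ r, An q (b r)) ∧
      (∀ r, r ∉ T → ∀ n, b r n = 0) ∧ ∀ n, e (c + m * n) = ∑ r ∈ T, piK K r ^ (m * n) * b r n

/-- **JOB WEC** (1 h), `theorem wec : S_EXC → S_WEC`. PROOF. `s = e + r`, `T, b` from EXC for `e` and `c`. `‖b r n‖ ≤ C r`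
(`An`, `i = 0`). `T' = {r ∈ T | ρ < r ∧ b r ≠ 0}`. If `T' = ∅` the first alternative holds (each term of the sum
is `0` or `≤ C r^(m n) ≤ C ρ^(m n)`). Otherwise `R = max T'`, `ν = (piK K R)^(-m)`, `b := b R`: the difference
`s (c + m n) ν^n - b R n` is the sum of the terms `(piK K r/piK K R)^(m n) b r n`, `r ≠ R`, which vanish or have `r < R`, so
are `≤ C (r/R)^n`, and of `r(c + m n) ν^n`, at most `C' (ρ/R)^(m n) ≤ C' (ρ/R)^n`. `ε` = the largest of these ratios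
(`0 < ρ/R ≤ ε < 1`). -/
def S_WEC : Prop :=
  ∀ (K : Type) [NormedField K] [IsUltrametricDist K] (q : ℝ) (m : ℕ), 0 < q → q ≤ 1 → 0 < m →
    (∀ x : K, ‖x‖ = 1 → ‖x ^ m - 1‖ ≤ q) → ∀ (ρ : ℝ) (s : ℕ → K), 0 < ρ → We ρ s → ∀ c : ℕ,
    (∃ C : ℝ, ∀ n, ‖s (c + m * n)‖ ≤ C * ρ ^ (m * n)) ∨
    ∃ (ν : K) (b : ℕ → K) (ε C : ℝ), ν ≠ 0 ∧ An q b ∧ (∃ n, b n ≠ 0) ∧ 0 < ε ∧ ε < 1 ∧
      ∀ n, ‖s (c + m * n) * ν ^ n - b n‖ ≤ C * ε ^ n

/-- **JOB GDV** (0.4 h), `theorem gdv : S_GDV`. PROOF. This is `Pool.Agent.Q170.GP.gap_seq` with the hypothesis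
`p^t ∣ g n` in place of (`s n = 0`, `p^n ∣ s n - g n`, `X ≤ n`); the same proof (copy it; only the last lines
change: `strassmann μ m Q1 Q2 hdeg _ A _ L t hL _`). -/
def S_GDV : Prop :=
  ∀ (p : ℕ) [Fact p.Prime], p ≠ 2 → ∀ g : ℕ → ℤ_[p],
    (∀ i n, (p : ℤ_[p]) ^ i ∣ (fwdDiff 1)^[i] g n) → ∀ μ : ℕ, (∃ n, ¬ (p : ℤ_[p]) ^ μ ∣ g n) →
    ∀ (A : Finset ℕ) (t L : ℕ), 2 * μ < A.card → (∀ n ∈ A, n ≤ L) →
      (∀ n ∈ A, (p : ℤ_[p]) ^ t ∣ g n) → p ^ t < p ^ μ * L ^ (2 * μ)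

/-- **JOB GAN** (1 h), `theorem gan : S_GDV → S_GAN`. PROOF. Let `b n0 ≠ 0`; choose a linear `ℓ : K → ℚ_p` with
`ℓ (b n0) ≠ 0` and `D` with `‖ℓ x‖ ≤ D ‖x‖` (finite dimension), and `s` with `D C ≤ p^s` for the constants `C` of `An` and
of the bound on `S`. `g n = p^s ℓ(b n)` is a `p`-adic integer (case `i = 0`) with `‖Δ^i g n‖ ≤ p^(-i)`, i.e.
`p^i ∣ Δ^i g n`; `¬ p^μ ∣ g n0` for some `μ`. On `S`: `‖g n‖ ≤ ε^n ≤ p^(-(n/T))` where `ε^T ≤ 1/p`, `T ≥ 1`. Put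
`μ' = (μ + 1) T`. Let `A ⊆ S`, `2 μ' < |A|`, `X ≤ n ≤ L` on `A`. GDV with `t = X/T`: `p^(X/T) < p^μ L^(2μ)`, so
`p^X ≤ p^(T (X/T) + T) ≤ (p^(X/T))^T p^T < (p^μ L^(2μ))^T p^T = p^(μ') L^(2μT) ≤ p^(μ') L^(2μ')` (`L ≥ 1` as `|A| ≥ 2`). -/
def S_GAN : Prop :=
  ∀ (p : ℕ) [Fact p.Prime], p ≠ 2 → ∀ (K : Type) [NormedField K] [NormedAlgebra ℚ_[p] K]
    [FiniteDimensional ℚ_[p] K] (b : ℕ → K) (ε C : ℝ), An ((p : ℝ)⁻¹) b → (∃ n, b n ≠ 0) →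
    0 < ε → ε < 1 → ∀ S : Set ℕ, (∀ n ∈ S, ‖b n‖ ≤ C * ε ^ n) → ∃ μ, GapP p μ S

/-- **JOB FLD** (0.4 h), `theorem fld : S_FLD`. PROOF. `E = IntermediateField.adjoin ℚ_[p] (χ.rootSet (PadicAlgCl p))` is
finite over `ℚ_[p]` (finitely many algebraic elements; or it is a splitting field), and `χ` splits in `E` as it splits
in the algebraic closure with all its roots in `E` (`IntermediateField.splits_of_splits` or
`Polynomial.IsSplittingField` of `adjoin_rootSet_isSplittingField`). -/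
def S_FLD : Prop :=
  ∀ (p : ℕ) [Fact p.Prime] (χ : Polynomial ℚ_[p]), χ ≠ 0 →
    ∃ E : IntermediateField ℚ_[p] (PadicAlgCl p), FiniteDimensional ℚ_[p] E ∧
      (χ.map (algebraMap ℚ_[p] E)).Splits

/-- **JOB DC1** (1 h), `theorem dc1 : S_WEO → S_WEV → S_UNP → S_WEC → S_GAN → S_FLD → S_DC1`. PROOF. `E` from FLD for the
characteristic polynomial of `lin g` (monic, so `≠ 0`); `E` is a normed field, ultrametric, complete and proper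
(`FiniteDimensional.complete ℚ_[p] E`, `FiniteDimensional.proper ℚ_[p] E`), of characteristic `0`, and the norm of
`algebraMap ℚ_[p] E x` is `‖x‖`. Apply WEO to `map (algebraMap _ _) (g i)`, `map _ u` and `algebraMap ∘ w n`
(`Matrix.charpoly_map`), WEV to `map _ G`. `m` from UNP with `q = 1/p`. For `s n = algebraMap (eval (w n) G)` and every `k ≥ 1`
WEC (`ρ = σ^k`) gives one of the alternatives: the second one for some `k` gives by GAN the first one here (for the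
`n` with `s (c + m n) = 0` we have `‖b n‖ ≤ C ε^n`). Otherwise `‖s (c + m n)‖ ≤ C (σ^k)^(m n) ≤ C (σ^k)^n` for all `k ≥ 1`
(`k = 0`: from `k = 1`). -/
def S_DC1 : Prop :=
  ∀ (p : ℕ) [Fact p.Prime], p ≠ 2 → ∀ (ι : Type) [Fintype ι] [DecidableEq ι]
    (g : ι → MvPolynomial ι ℚ_[p]) (u : MvPolynomial ι ℚ_[p]) (w : ℕ → ι → ℚ_[p]), Orb g u w →
    ∀ σ C : ℝ, 0 < σ → σ < 1 → (∀ n, ‖w n‖ ≤ C * σ ^ n) → ∃ m : ℕ, 0 < m ∧
      ∀ (c : ℕ) (G : MvPolynomial ι ℚ_[p]), (∃ μ, GapP p μ {n | eval (w (c + m * n)) G = 0}) ∨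
        (fun n => ‖eval (w (c + m * n)) G‖) ∈ Sm1 σ

/-! ## The second alternative: one superattracting direction -/

/-- **JOB PRJ** (0.9 h), `theorem prj : S_PRJ`. PROOF. If the constant coefficient of `χ = M.charpoly` is not `0` then
`det M ≠ 0`: `E = 0`, `B = M⁻¹`, `v = 0`. Otherwise `natTrailingDegree χ = 1`, `χ = X q` with `q(0) ≠ 0`. Put
`E = q(0)⁻¹ q(M)`: `M E = E M = 0` (Cayley-Hamilton), `1 - q/q(0) = X b`, `B = b(M)`: `B M = 1 - E`. The vectors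
`E x` are in the kernel of `M`, so in the generalised eigenspace of `0` of `Matrix.toLin'`/`mulVecLin`, whose dimension is
`natTrailingDegree` of the characteristic polynomial (`LinearMap.finrank_maxGenEigenspace_zero_eq`), so `≤ 1`;
`finrank_le_one_iff` gives `v`. -/
def S_PRJ : Prop :=
  ∀ (K : Type) [Field K] (ι : Type) [Fintype ι] [DecidableEq ι] (M : Matrix ι ι K),
    M.charpoly.natTrailingDegree ≤ 1 → ∃ (E B : Matrix ι ι K) (v : ι → K), M * E = 0 ∧ E * M = 0 ∧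
      B * M = 1 - E ∧ ∀ x : ι → K, ∃ c : K, E.mulVec x = c • v

/-- **JOB CON** (1.2 h), `theorem con : S_POL → S_ORB → S_CON`. PROOF. `u0 = constantCoeff u`, `M = lin g`,
`N n = u0 w(n+1) - M w(n)`, `‖N n‖ ≤ C0 ‖w n‖^2` (ORB, `k = 2`, and `‖Q_i(w n)‖ ≤ C ‖w n‖^2` by POL). `y = (1 - E) w`, `s = E w`. `u0 y(n+1) = M w(n) + (1 - E) N n` and
`B M w(n) = y(n)`, so `y(n) = B (u0 y(n+1) - (1 - E) N n)`: `‖y n‖ ≤ C1 max (‖y (n+1)‖) (‖w n‖^2)`, `C1 ≥ 1`;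
`u0 s(n+1) = E N n`: `‖s (n+1)‖ ≤ C1 ‖w n‖^2`. Let `C1 max 1 C1 ‖w n‖ < 1` for `n ≥ n1` (`w n → 0`). Claim:
`‖y n‖ ≤ C1 ‖w n‖^2` for `n ≥ n1`. Otherwise `‖y n‖ ≤ C1 ‖y (n+1)‖`, so `y (n+1) ≠ 0`,
`‖s (n+1)‖ ≤ C1 ‖w n‖^2 < ‖y n‖ ≤ C1 ‖y (n+1)‖`, `‖w (n+1)‖ ≤ C1 ‖y (n+1)‖` and
`C1 ‖w (n+1)‖^2 ≤ C1 C1 ‖w (n+1)‖ ‖y (n+1)‖ < ‖y (n+1)‖`: the same holds for `n + 1`, and so on, thus
`‖y (n+j)‖ ≥ C1^(-j) ‖y n‖ > 0` for all `j`, which contradicts `‖y (n+j)‖ ≤ C (σ^k)^(n+j)` for `k` with `σ^k < 1/C1`. -/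
def S_CON : Prop :=
  ∀ (K : Type) [NormedField K] [IsUltrametricDist K] (ι : Type) [Fintype ι] [DecidableEq ι]
    (g : ι → MvPolynomial ι K) (u : MvPolynomial ι K) (w : ℕ → ι → K), Orb g u w →
    ∀ (E B : Matrix ι ι K), lin g * E = 0 → E * lin g = 0 → B * lin g = 1 - E →
    ∀ σ : ℝ, 0 < σ → σ < 1 → (fun n => ‖w n‖) ∈ Sm1 σ →
    ∃ (C : ℝ) (n0 : ℕ), ∀ n, n0 ≤ n → ‖w n - E.mulVec (w n)‖ ≤ C * ‖w n‖ ^ 2

/-- **JOB TEM** (0.8 h), `theorem tem : S_TEM`. PROOF. Sums, multiples, constants, monotonicity (`‖t n‖ ≤ 1`) and the fifth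
part (`φ = 0`) are clear. Product: `a = φ(t) + r`, `b = ψ(t) + s`, `‖r‖ ≤ C ‖t‖^k`, `‖s‖ ≤ C' ‖t‖^l`.
`a b - φ(t) ψ(t) = a s + r ψ(t)`, `‖a s‖ ≤ A C' ‖t‖^(i+l)`, `‖ψ(t)‖ ≤ ‖b‖ + ‖s‖ ≤ (B + C') ‖t‖^j` (`j ≤ l`),
`‖r ψ(t)‖ ≤ C (B + C') ‖t‖^(k+j)`. (Negative constants: replace `C` by `max C 0`.) -/
def S_TEM : Prop :=
  ∀ (K : Type) [NormedField K] (t : ℕ → K), (∀ n, ‖t n‖ ≤ 1) →
    (∀ (k : ℕ) (a b : ℕ → K), Te t k a → Te t k b → Te t k (fun n => a n + b n)) ∧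
    (∀ (k : ℕ) (c : K) (a : ℕ → K), Te t k a → Te t k (fun n => c * a n)) ∧
    (∀ (k : ℕ) (c : K), Te t k (fun _ => c)) ∧
    (∀ (j k : ℕ) (a : ℕ → K), j ≤ k → Te t k a → Te t j a) ∧
    (∀ (k : ℕ) (C : ℝ) (a : ℕ → K), (∀ n, ‖a n‖ ≤ C * ‖t n‖ ^ k) → Te t k a) ∧
    ∀ (i j k l m : ℕ) (A B : ℝ) (a b : ℕ → K), j ≤ l → m ≤ i + l → m ≤ k + j →
      (∀ n, ‖a n‖ ≤ A * ‖t n‖ ^ i) → (∀ n, ‖b n‖ ≤ B * ‖t n‖ ^ j) → Te t k a → Te t l b →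
      Te t m (fun n => a n * b n)

/-- **JOB TEV** (0.8 h), `theorem tev : S_TEM → S_TEV`. PROOF. Like WEV: for a monomial `M` of degree `d ≥ 1`,
`‖M(w n)‖ ≤ D' ‖t n‖^d` and `Te t (k + d - 1) (M(w n))`, by induction on `d` with the product rule of TEM
(`a = w i`: exponents `i = 1`, `k`; `b = M'(w)`: `j = d'`, `l = k + d' - 1 ≥ d'`; `m = k + d'`). -/
def S_TEV : Prop :=
  ∀ (K : Type) [NormedField K] (t : ℕ → K), (∀ n, ‖t n‖ ≤ 1) → ∀ (ι : Type) [Fintype ι] (D : ℝ)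
    (k : ℕ) (w : ℕ → ι → K), 1 ≤ k → (∀ n, ‖w n‖ ≤ D * ‖t n‖) → (∀ i, Te t k (fun n => w n i)) →
    ∀ G : MvPolynomial ι K, Te t k (fun n => eval (w n) G) ∧
      (G ∈ idealOfVars ι K ^ 2 → Te t (k + 1) (fun n => eval (w n) G))

/-- **JOB TES** (0.6 h), `theorem tes : S_TEM → S_TES`. PROOF. `a n = φ(t n) + r n`, `‖r n‖ ≤ C ‖t n‖^k`. So
`a (n+1) = φ(t (n+1)) + r (n+1)`, `‖r (n+1)‖ ≤ C D^k ‖t n‖^(2k) ≤ C D^k ‖t n‖^(k+1)`. `φ(t (n+1))`: sums and products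
(TEM with `i = j = 0`, all sequences are bounded) of `t (n+1)`, which satisfies `Te t (k+1)`. -/
def S_TES : Prop :=
  ∀ (K : Type) [NormedField K] (t : ℕ → K), (∀ n, ‖t n‖ ≤ 1) → ∀ (D : ℝ) (k : ℕ), 0 ≤ D → 1 ≤ k →
    (∀ n, ‖t (n + 1)‖ ≤ D * ‖t n‖ ^ 2) → Te t (k + 1) (fun n => t (n + 1)) →
    ∀ a : ℕ → K, Te t k a → Te t (k + 1) (fun n => a (n + 1))

/-- **JOB TEI** (1 h), `theorem tei : S_POL → S_ORB → S_TEM → S_TEV → S_TES → S_TEI`. PROOF. Induction on `k`; it is enough to treat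
`k ≥ 1` (monotonicity). `k = 1`: `‖w n i‖ ≤ D ‖t n‖`. From `k` to `k+1`: by ORB with `k+1`
`u0 w(n+1) = M w(n) + Q(w n) + O(‖t n‖^(k+1))`, `M = lin g`, and `Q_i(w n)` satisfies `Te t (k+1)` (TEV) and is `O(‖t n‖^2)`
(POL). Apply `E` (`E M = 0`): `u0 t(n+1) v = E (Q(w n)) + O(‖t n‖^(k+1))`; looking at a
coordinate with `v i ≠ 0`: `t (n+1)` satisfies `Te t (k+1)`, and `‖t (n+1)‖ ≤ D' ‖t n‖^2`. By TES
`w (n+1) i` satisfies `Te t (k+1)`, so `M w(n) = u0 w(n+1) - Q(w n) - O(‖t n‖^(k+1))` does, so `w(n) - E w(n) = B M w(n)` does,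
and `E w(n) = t(n) v` does. -/
def S_TEI : Prop :=
  ∀ (K : Type) [NormedField K] [IsUltrametricDist K] (ι : Type) [Fintype ι] [DecidableEq ι]
    (g : ι → MvPolynomial ι K) (u : MvPolynomial ι K) (w : ℕ → ι → K), Orb g u w →
    ∀ (E B : Matrix ι ι K) (v : ι → K) (t : ℕ → K) (D : ℝ), E * lin g = 0 →
    B * lin g = 1 - E → v ≠ 0 → (∀ n, E.mulVec (w n) = t n • v) → (∀ n, ‖t n‖ ≤ 1) →
    (∀ n, ‖w n‖ ≤ D * ‖t n‖) → ∀ (k : ℕ) (i : ι), Te t k (fun n => w n i)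

/-- **JOB DC2** (1.2 h), `theorem dc2 : S_PRJ → S_CON → S_TEI → S_TEV → S_DC2`. PROOF. `E, B, v` from PRJ for `lin g`, `C, n0`
from CON. For `n ≥ n1` also `C ‖w n‖ < 1`, so `‖w n - E w n‖ < ‖w n‖` (`w n ≠ 0`) and `‖E w n‖ = ‖w n‖ ≠ 0`:
`E w n = t n • v`, `v ≠ 0`, `‖t n‖ ‖v‖ = ‖w n‖`; `‖t n‖ ≤ 1` for `n ≥ n2`. `w' n = w (n + n2)` satisfies `Orb g u w'`; TEI and
TEV: for every `k` there is a polynomial `φ_k` with `‖G(w' n) - φ_k(t' n)‖ ≤ C_k ‖t' n‖^k`. If some `φ_k` has a coefficient `≠ 0`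
of degree `< k`, let `j` be the least such degree: `‖φ_k(t)‖ = ‖a_j‖ ‖t‖^j` for small `t ≠ 0` and `C_k ‖t‖^k < ‖a_j‖ ‖t‖^j`, so
`G(w n) ≠ 0` for large `n` (`t n → 0`, `t n ≠ 0`). Otherwise `‖φ_k(t)‖ ≤ C ‖t‖^k` for `‖t‖ ≤ 1` and all `k`, so
`‖G(w' n)‖ ≤ C ‖w' n‖^k`; the finitely many `n < n2` are treated by enlarging the constant (`w n ≠ 0`). -/
def S_DC2 : Prop :=
  ∀ (K : Type) [NormedField K] [IsUltrametricDist K] (ι : Type) [Fintype ι] [DecidableEq ι]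
    (g : ι → MvPolynomial ι K) (u : MvPolynomial ι K) (w : ℕ → ι → K), Orb g u w →
    (lin g).charpoly.natTrailingDegree ≤ 1 → (∀ n, w n ≠ 0) →
    ∀ σ : ℝ, 0 < σ → σ < 1 → (fun n => ‖w n‖) ∈ Sm1 σ → ∀ G : MvPolynomial ι K,
    (∃ n0, ∀ n, n0 ≤ n → eval (w n) G ≠ 0) ∨
      (fun n => ‖eval (w n) G‖) ∈ Sm2 (fun n => ‖w n‖)

/-! ## Invariant ideals -/

/-- **JOB SMS** (0.6 h), `theorem sms : S_SMS`. PROOF. All axioms are elementary. `dom`: for the finitely many `n` with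
`b n > a n` enlarge the constant (`(σ^k)^n > 0`, `δ n ^ k > 0`). `shift`: `(σ^k)^(n+1) ≤ (σ^k)^n`; `δ (n+1)^k ≤ D^k δ n^k`
(`C ≥ 0`: replace `C` by `max C 0`). -/
def S_SMS : Prop :=
  (∀ σ : ℝ, 0 < σ → σ < 1 → Small (Sm1 σ)) ∧
  ∀ (δ : ℕ → ℝ) (D : ℝ), 0 ≤ D → (∀ n, 0 < δ n) → (∀ n, δ (n + 1) ≤ D * δ n) → Small (Sm2 δ)

/-- **JOB SPD** (0.6 h), `theorem spd : S_SPD`. PROOF. `e ≠ 0`, as the constant `1` is not in `Sm1 σ`. Let `D ≥ 1`. For `n ≥ c`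
write `n = c + m q + r`, `r < m`: `δ n ≤ D^m δ (c + m q)` and `δ (c + m q)^e ≤ C (σ^(e m k))^q = C ((σ^(m k))^q)^e`, so
`δ (c + m q) ≤ C' (σ^(m k))^q = C' (σ^k)^(m q) ≤ C' (σ^k)^(n - c - m) = C'' (σ^k)^n`. The `n < c` enlarge the constant. -/
def S_SPD : Prop :=
  ∀ (δ : ℕ → ℝ) (D σ : ℝ) (c m e : ℕ), 0 < σ → σ < 1 → 0 < m → (∀ n, 0 ≤ δ n) →
    (∀ n, δ (n + 1) ≤ D * δ n) → (fun n => δ (c + m * n) ^ e) ∈ Sm1 σ → δ ∈ Sm1 σ

/-- **JOB NUL** (1 h), `theorem nul : S_NUL`. PROOF. For `y ∈ P` not proportional to `θγ` (`θγ i = tht θ (γ i)`; it is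
`≠ 0`) choose a linear form `ℓ_y` (coefficients `a_i`, `∑ a_i X_i`) with `ℓ_y(y) = 0` and `ℓ_y(θγ) = 1`; `h` is the product
of these forms, homogeneous of degree `s` = their number. For all `a, b` the polynomial
`q = (C (θγ b) X a - C (θγ a) X b) h` vanishes at all common zeros `x` of the `map (tht θ) G`, `G ∈ J`: this is clear for
`x = 0`; otherwise `x = c y`, and if `y` is proportional to `θγ` then the first factor vanishes, if not then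
`ℓ_y(x) = 0`. `Pool.Agent.Q170.GP.exists_power`: `q^e'` is in the ideal; take for `e` the largest exponent for the pairs
`a, b`. -/
def S_NUL : Prop :=
  ∀ (p : ℕ) [Fact p.Prime] (θ : ℚ_[p] →+* ℂ) (N : ℕ) (J : Set (MvPolynomial (Fin (N + 1)) ℤ_[p]))
    (γ : Fin (N + 1) → ℤ_[p]) (P : Finset (Fin (N + 1) → ℂ)), γ ∈ Prim p (Fin (N + 1)) →
    (∀ x : Fin (N + 1) → ℂ, x ≠ 0 → (∀ G ∈ J, eval x (map (tht θ) G) = 0) →
      ∃ y ∈ P, ∃ c : ℂ, x = c • y) →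
    ∃ (s e : ℕ) (h : MvPolynomial (Fin (N + 1)) ℂ), h.IsHomogeneous s ∧
      eval (fun i => tht θ (γ i)) h = 1 ∧ ∀ a b : Fin (N + 1),
        ((C (tht θ (γ b)) * X a - C (tht θ (γ a)) * X b) * h) ^ e ∈
          Ideal.span ((fun G => map (tht θ) G) '' J)

/-- **JOB IPW** (1.2 h), `theorem ipw : S_NUL → S_IPW`. PROOF. `ℂ` is a `ℚ_p`-vector space by `θ`; choose a linear
`r : ℂ → ℚ_p` with `r (θ c) = c` (a left inverse of the injective linear map `θ`), so `r (θ c * z) = c * r z`. For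
`Q ∈ ℂ[X]` put `R Q = ∑ κ ∈ Q.support, monomial κ (r (coeff κ Q))`; `R` keeps homogeneity, and for `y ∈ ℚ_p^(N+1)`
`eval y (R Q) = r (eval (θ ∘ y) Q)`. With `h, s, e` of NUL put `ψ = R (h^e)`, homogeneous of degree `s e`,
`eval γ ψ = r (1^e) = 1`. Write the `e`-th power in NUL as `∑ k, A_k * map (tht θ) (G_k)`, `G_k ∈ J`, evaluate at
`θ ∘ y`, `y ∈ ℤ_p^(N+1)`, and apply `r`. -/
def S_IPW : Prop :=
  ∀ (p : ℕ) [Fact p.Prime] (θ : ℚ_[p] →+* ℂ) (N : ℕ) (J : Set (MvPolynomial (Fin (N + 1)) ℤ_[p]))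
    (γ : Fin (N + 1) → ℤ_[p]) (P : Finset (Fin (N + 1) → ℂ)), γ ∈ Prim p (Fin (N + 1)) →
    (∀ x : Fin (N + 1) → ℂ, x ≠ 0 → (∀ G ∈ J, eval x (map (tht θ) G) = 0) →
      ∃ y ∈ P, ∃ c : ℂ, x = c • y) →
    ∃ (s e : ℕ) (ψ : MvPolynomial (Fin (N + 1)) ℚ_[p]), ψ.IsHomogeneous s ∧
      eval (fun i => (γ i : ℚ_[p])) ψ = 1 ∧ ∀ a b : Fin (N + 1), ∃ (n : ℕ)
        (A : Fin n → MvPolynomial (Fin (N + 1)) ℚ_[p])
        (G : Fin n → MvPolynomial (Fin (N + 1)) ℤ_[p]), (∀ k, G k ∈ J) ∧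
        ∀ y : Fin (N + 1) → ℤ_[p],
          ((y a * γ b - y b * γ a : ℤ_[p]) : ℚ_[p]) ^ e * eval (fun i => (y i : ℚ_[p])) ψ =
            ∑ k, eval (fun i => (y i : ℚ_[p])) (A k) * ((eval y (G k) : ℤ_[p]) : ℚ_[p])

/-- **JOB LOW** (0.8 h), `theorem low : S_POL → S_LOW`. PROOF. Let `γ i0` be a unit. When `dl (Y n) γ < 1` also `Y n i0` is a unit
(else all `Y n a * γ i0` were divisible by `p`, so all `Y n a`). `c n = Y n i0 / γ i0` has norm `1`, and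
`‖Y n - c n • γ‖ ≤ dl (Y n) γ`, as `Y n a - c n γ a = (Y n a γ i0 - Y n i0 γ a)/γ i0`. By POL (second part)
`‖ψ(Y n) - ψ(c n γ)‖ ≤ C dl (Y n) γ → 0`, and `‖ψ(c n γ)‖ = ‖ψ(γ)‖ > 0` (homogeneous); take half of this. -/
def S_LOW : Prop :=
  ∀ (p : ℕ) [Fact p.Prime] (N : ℕ) (γ : Fin (N + 1) → ℤ_[p]) (Y : ℕ → Fin (N + 1) → ℤ_[p]),
    γ ∈ Prim p (Fin (N + 1)) → (∀ n, Y n ∈ Prim p (Fin (N + 1))) →
    Tendsto (fun n => dl (Y n) γ) atTop (𝓝 0) →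
    ∀ (s : ℕ) (ψ : MvPolynomial (Fin (N + 1)) ℚ_[p]), ψ.IsHomogeneous s →
    eval (fun i => (γ i : ℚ_[p])) ψ ≠ 0 →
    ∃ c : ℝ, 0 < c ∧ ∀ᶠ n in atTop, c ≤ ‖eval (fun i => (Y n i : ℚ_[p])) ψ‖

/-- **JOB IDL** (1.2 h), `theorem idl : S_IPW → S_LOW → S_IDL`. PROOF. `J` = the set of the homogeneous `G` (of some
degree) with `(fun n => ‖eval (Y n) G‖) ∈ Sm`. `H ⊆ J`. If `G ∈ J` then `(bind₁ Fp)^[m] G ∈ J`: homogeneous, and its value at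
`Y n` is `eval (Y (n+1)) G` (`Pool.Agent.Q170.GP.eval_bind_iter`), `Small.shift`. Let `x ≠ 0` be a common zero of the
`map (tht θ) G`, `G ∈ J`. For `h ∈ H` the iterate `(bind₁ Fp)^[m n] h` is in `J`, so `map (tht θ) h` vanishes at the
`m n`-th iterate of `x`; so `x` is proportional to an element of `P`. IPW and LOW: for all `a, b` and large `n`
`c ‖Y n a γ b - Y n b γ a‖^e ≤ ∑ k, ‖A_k(Y n)‖ ‖G_k(Y n)‖ ≤ C ∑ k, ‖G_k(Y n)‖` (the `A_k(Y n)` are bounded). So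
`n ↦ ‖Y n a γ b - Y n b γ a‖^e` is in `Sm` (`zero, add, smul, dom`), and `dl (Y n) γ ^ e` is at most the sum of these over
all `a, b` (the sup norm is attained; `N + 1 ≥ 1`). -/
def S_IDL : Prop :=
  ∀ (p : ℕ) [Fact p.Prime] (θ : ℚ_[p] →+* ℂ) (N D m : ℕ)
    (Fp : Fin (N + 1) → MvPolynomial (Fin (N + 1)) ℤ_[p]), (∀ i, (Fp i).IsHomogeneous D) →
    ∀ H : Set (MvPolynomial (Fin (N + 1)) ℤ_[p]), (∀ h ∈ H, ∃ e : ℕ, h.IsHomogeneous e) →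
    ∀ P : Finset (Fin (N + 1) → ℂ),
    (∀ x : Fin (N + 1) → ℂ, x ≠ 0 →
      (∀ n, ∀ h ∈ H, eval ((pt fun i => map (tht θ) (Fp i))^[m * n] x) (map (tht θ) h) = 0) →
      ∃ y ∈ P, ∃ c : ℂ, x = c • y) →
    ∀ (γ : Fin (N + 1) → ℤ_[p]) (Y : ℕ → Fin (N + 1) → ℤ_[p]), γ ∈ Prim p (Fin (N + 1)) →
    (∀ n, Y n ∈ Prim p (Fin (N + 1))) → (∀ n, Y (n + 1) = (pt Fp)^[m] (Y n)) →
    Tendsto (fun n => dl (Y n) γ) atTop (𝓝 0) → ∀ Sm : Set (ℕ → ℝ), Small Sm →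
    (∀ h ∈ H, (fun n => ‖eval (Y n) h‖) ∈ Sm) → ∃ e : ℕ, (fun n => dl (Y n) γ ^ e) ∈ Sm

/-! ## Affine coordinates -/

/-- **JOB CHP** (1 h), `theorem chp : S_CHP`. PROOF. Replace `γ` by `γ / γ i0`, so `γ i0 = 1`. Let `U` be the identity matrix
with the column `i0` replaced by `γ` (invertible). `J U` has the column `i0` equal to `κ γ`, so `U⁻¹ J U` has the column
`i0` equal to `κ e_(i0)`, and its other entries in the rows and columns different from `i0` are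
`J i j - γ i * J i0 j` (`U⁻¹` = the identity with the column `i0` replaced by `-γ`, with `1` at `i0`). So
`J.charpoly = (X - κ) * M.charpoly`, `M` the matrix in the statement (expand `det (X - U⁻¹ J U)` along the column
`i0`, or reindex `Fin (N+1) ≃ Unit ⊕ {i // i ≠ i0}` and use `Matrix.det_fromBlocks_zero₂₁`), and
`natTrailingDegree` is additive, `natTrailingDegree (X - C κ) = 0`. (Only `≤` is needed. Another proof: dimension of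
the generalised eigenspaces of `0`, `LinearMap.finrank_maxGenEigenspace_zero_eq`.) -/
def S_CHP : Prop :=
  ∀ (K : Type) [Field K] (N : ℕ) (J : Matrix (Fin (N + 1)) (Fin (N + 1)) K) (i0 : Fin (N + 1))
    (γ : Fin (N + 1) → K) (κ : K), γ i0 ≠ 0 → κ ≠ 0 → J.mulVec γ = κ • γ →
    (Matrix.of fun i j : {i : Fin (N + 1) // i ≠ i0} =>
      J i j - γ i / γ i0 * J i0 j).charpoly.natTrailingDegree ≤ J.charpoly.natTrailingDegree

/-- **JOB CHU** (0.6 h), `theorem chu : S_CHU`. PROOF. `γ i0` is a unit for some `i0`. If `Y i0` were not a unit then, as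
`dl Y γ < 1`, `p` divides `Y a * γ i0 - Y i0 * γ a`, so `p ∣ Y a` for all `a`, a contradiction. With
`x a = Y a / Y i0 - γ a / γ i0` (a `p`-adic number) we have `‖x a‖ = ‖Y a γ i0 - Y i0 γ a‖ ≤ dl Y γ`, and
`Y a γ b - Y b γ a = Y i0 γ i0 (x a * (γ b/γ i0) - x b * (γ a/γ i0))`, so `dl Y γ ≤ max ‖x a‖`. -/
def S_CHU : Prop :=
  ∀ (p : ℕ) [Fact p.Prime] (N : ℕ) (γ : Fin (N + 1) → ℤ_[p]), γ ∈ Prim p (Fin (N + 1)) →
    ∃ i0 : Fin (N + 1), ‖γ i0‖ = 1 ∧ ∀ Y : Fin (N + 1) → ℤ_[p], Y ∈ Prim p (Fin (N + 1)) →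
      dl Y γ < 1 → ‖Y i0‖ = 1 ∧
      ‖fun a : {a : Fin (N + 1) // a ≠ i0} =>
        (Y a : ℚ_[p]) / (Y i0 : ℚ_[p]) - (γ a : ℚ_[p]) / (γ i0 : ℚ_[p])‖ = dl Y γ

/-- **JOB CHT** (1.5 h), `theorem cht : S_CHP → S_CHU → S_CHT`. PROOF. `i0` from CHU, `σ' = {i // i ≠ i0}`,
`w n a = Y n a / Y n i0 - γ' a`, `γ' a = γ a/γ i0`. `Z i = 1` for `i = i0` and `C (γ' i) + X i` otherwise (polynomials in the
variables `σ'` over `ℚ_p`); for a form `G` put `G♭ = bind₁ Z (map coe G)`; then `eval (w n) G♭ = G(Z(w n))` with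
`Z(w n) = Y n / Y n i0`, so `eval (Y n) G = (Y n i0)^e * eval (w n) G♭` and the norms agree. Put
`u = C ((γ i0)^(D-1)) * (Fp i0)♭` and `g i = C ((γ i0)^(D-1)) * ((Fp i)♭ - C (γ' i) * (Fp i0)♭)`. `Y (n+1) = Fp(Y n) =
(Y n i0)^D Fp(Z(w n))`, so `u(w n) w(n+1) = g(w n)` and `‖u(w n)‖ = 1`; at `w = 0`: `Fp(γ') = λ (γ i0)^(-D) γ`, so
`u(0) ≠ 0` (`λ ≠ 0` as `Fp(γ)` is primitive) and `g(0) = 0`. The coefficient of `X j` in `(Fp i)♭` is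
`∂_j Fp_i (γ') = (γ i0)^(-(D-1)) ∂_j Fp_i(γ)`; so `lin g` is the matrix of CHP for `J = jac Fp γ` (over `ℚ_p`), and
`J γ = D λ γ` (Euler), `D λ ≠ 0`. (`natTrailingDegree` of the characteristic polynomial is the same over `ℤ_p` and
`ℚ_p`.) -/
def S_CHT : Prop :=
  ∀ (p : ℕ) [Fact p.Prime] (N D : ℕ), 1 ≤ D →
    ∀ Fp : Fin (N + 1) → MvPolynomial (Fin (N + 1)) ℤ_[p], (∀ i, (Fp i).IsHomogeneous D) →
    (∀ x ∈ Prim p (Fin (N + 1)), pt Fp x ∈ Prim p (Fin (N + 1))) →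
    ∀ (γ : Fin (N + 1) → ℤ_[p]) (lam : ℤ_[p]) (Y : ℕ → Fin (N + 1) → ℤ_[p]),
    γ ∈ Prim p (Fin (N + 1)) → (∀ i, pt Fp γ i = lam * γ i) → (∀ n, Y n ∈ Prim p (Fin (N + 1))) →
    (∀ n, Y (n + 1) = pt Fp (Y n)) → (∀ n, dl (Y n) γ < 1) →
    ∃ (i0 : Fin (N + 1)) (g : {i : Fin (N + 1) // i ≠ i0} →
        MvPolynomial {i : Fin (N + 1) // i ≠ i0} ℚ_[p])
      (u : MvPolynomial {i : Fin (N + 1) // i ≠ i0} ℚ_[p])
      (w : ℕ → {i : Fin (N + 1) // i ≠ i0} → ℚ_[p]), Orb g u w ∧ (∀ n, ‖w n‖ = dl (Y n) γ) ∧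
      (∀ (G : MvPolynomial (Fin (N + 1)) ℤ_[p]) (e : ℕ), G.IsHomogeneous e →
        ∃ G' : MvPolynomial {i : Fin (N + 1) // i ≠ i0} ℚ_[p],
          ∀ n, ‖eval (w n) G'‖ = ‖eval (Y n) G‖) ∧
      (lin g).charpoly.natTrailingDegree ≤ (jac Fp γ).charpoly.natTrailingDegree

/-! ## Sets of numbers -/

/-- **JOB GSB** (0.6 h), `theorem gsb : S_GSB`. PROOF. The first part is clear. Second part: let `A` be a finite subset of
`{n | j + K n ∈ S}` and `A'` its image under `n ↦ j + K n`, of the same cardinality. `GapP` for `A'` with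
`j + K X` and `j + K L`: `p^(j + K X) < p^μ (j + K L)^(2μ)`. `X ≤ j + K X`, and `L ≥ 1` as `A` has at least two elements
(`μ' ≥ 1`), so `j + K L ≤ (j + K) L` and `p^X < p^μ (j + K)^(2μ) L^(2μ) ≤ p^μ' L^(2μ')` with
`μ' = μ + (j + K) 2 μ + 1` (`x ≤ p^x`). Third part: a finite set with at most `2 μ` elements satisfies `GapP p μ`. -/
def S_GSB : Prop :=
  ∀ p : ℕ, 2 ≤ p →
    (∀ (μ : ℕ) (S S' : Set ℕ), S' ⊆ S → GapP p μ S → GapP p μ S') ∧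
    (∀ (μ : ℕ) (S : Set ℕ) (j K : ℕ), 0 < K → GapP p μ S → ∃ μ', GapP p μ' {n | j + K * n ∈ S}) ∧
    ∀ S : Set ℕ, S.Finite → ∃ μ, GapP p μ S

/-- **JOB GGC** (0.8 h), `theorem ggc : S_GSB → S_GGC`. PROOF. The first two parts from GSB (with `K0 = 1`, `a = 0`), the
third one with `K0 = 1`. Fourth part: let `K0 j` be the modulus of the class `j < k0`, `K1 = k0 * ∏ K0 j`. Let `K` be a
multiple of `K1`, `K = k0 K'`, `a j` the bound of the class `j` for `K'` (a multiple of `K0 j`), and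
`a = a0 + k0 (1 + ∑ a j)`. For `i ≥ a` write `i = a0 + j + k0 s`, `j < k0`, `s ≥ a j`; `i + K n = a0 + j + k0 (s + K' n)`, so the
alternatives for `i` are those of the class `j` for `s`. -/
def S_GGC : Prop :=
  ∀ p : ℕ, 2 ≤ p →
    (∀ (μ : ℕ) (S : Set ℕ), GapP p μ S → GG p S) ∧
    (∀ S : Set ℕ, S.Finite → GG p S) ∧
    (∀ (S : Set ℕ) (a : ℕ), (∀ n, a ≤ n → n ∈ S) → GG p S) ∧
    ∀ (S : Set ℕ) (a0 k0 : ℕ), 0 < k0 → (∀ j, j < k0 → GG p {n | a0 + j + k0 * n ∈ S}) → GG p S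

/-- **JOB GGS** (0.7 h), `theorem ggs : S_GGS`. PROOF. First part: `K = K0` in `GG`, `μ` = 1 + the sum of the `μ`s of the classes
`a + j`, `j < K`, `GapP.mono` and `Pool.Agent.Q170.GP.split_of_gap`. Second part: for every class modulo `k` which meets `S`
the progression `k m + c`, `c` the least element of `S` in this class. -/
def S_GGS : Prop :=
  (∀ p : ℕ, 2 ≤ p → ∀ S : Set ℕ, GG p S → ∃ (T : Finset (ℕ × ℕ)) (M : ℕ) (b C : ℝ) (R : Set ℕ),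
    1 < b ∧ 0 < C ∧ Sparse M b C R ∧ S = {n | ∃ q ∈ T, ∃ m : ℕ, n = q.1 * m + q.2} ∪ R) ∧
  ∀ (k : ℕ) (S : Set ℕ), 0 < k → (∀ n ∈ S, n + k ∈ S) →
    ∃ T : Finset (ℕ × ℕ), S = {n | ∃ q ∈ T, ∃ m : ℕ, n = q.1 * m + q.2}

/-! ## The theorem over the `p`-adic integers -/

/-- **JOB ITF** (0.6 h), `theorem itf : S_ITF`. PROOF. `Pool.Agent.Q170.GP.eval_bind_iter`, `bind_iter_eq`; induction on
`k`. -/
def S_ITF : Prop :=
  (∀ (R ι : Type) [CommRing R] (F : ι → MvPolynomial ι R) (k : ℕ), pt (itF F k) = (pt F)^[k]) ∧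
  (∀ (R ι : Type) [CommRing R] (F : ι → MvPolynomial ι R) (d k : ℕ), (∀ i, (F i).IsHomogeneous d) →
    (∀ i, (itF F k i).IsHomogeneous (d ^ k)) ∧
    ∀ (e : ℕ) (G : MvPolynomial ι R), G.IsHomogeneous e →
      ((bind₁ F)^[k] G).IsHomogeneous (e * d ^ k)) ∧
  ∀ (R R' ι : Type) [CommRing R] [CommRing R'] (Θ : R →+* R') (F : ι → MvPolynomial ι R) (k : ℕ),
    (fun i => map Θ (itF F k i)) = itF (fun i => map Θ (F i)) k

/-- **JOB CYG** (2 h, helper256 does it), `theorem cyg : S_DC1 → S_DC2 → S_SMS → S_SPD → S_IDL → S_CHT →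
S_ORB → S_GSB → S_GGC → S_CYG`. PROOF. `w` from CHT (`dl (Y n) γ ≤ p^(-n-1) < 1`), `δ n = ‖w n‖ = dl (Y n) γ`. If
`w n = 0` for some `n` then for all larger `n` (`δ (n+1) ≤ D δ n`), `Y n` is proportional to `γ`, all `h ∈ H` vanish at
`Y n`: GGC, third part. Otherwise `δ n > 0`. If `δ ∈ Sm1 σ`: DC2 for all `h ∈ H`. If all of them are in `Sm2 δ` then IDL
(`m = 1`): `δ^e ∈ Sm2 δ`, `δ n^e ≤ C δ n^(e+1)`, `1 ≤ C δ n`, a contradiction. So some `h ∈ H` is not `0` for large `n`: the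
set is finite. If `δ ∉ Sm1 σ`: `m` of DC1. For every class `c` modulo `m` some `h ∈ H` is in the first alternative, and
GGC, GSB apply; otherwise all `h ∈ H` are in `Sm1 σ` along the class, and IDL (with `m`) and SPD give `δ ∈ Sm1 σ`. -/
def S_CYG : Prop :=
  ∀ (p : ℕ) [Fact p.Prime], p ≠ 2 → ∀ (θ : ℚ_[p] →+* ℂ) (N D : ℕ), 1 ≤ D →
    ∀ Fp : Fin (N + 1) → MvPolynomial (Fin (N + 1)) ℤ_[p], (∀ i, (Fp i).IsHomogeneous D) →
    (∀ x ∈ Prim p (Fin (N + 1)), pt Fp x ∈ Prim p (Fin (N + 1))) →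
    ∀ H : Set (MvPolynomial (Fin (N + 1)) ℤ_[p]), (∀ h ∈ H, ∃ e : ℕ, h.IsHomogeneous e) →
    (∀ k : ℕ, 0 < k → ∃ P : Finset (Fin (N + 1) → ℂ), ∀ x : Fin (N + 1) → ℂ, x ≠ 0 →
      (∀ n, ∀ h ∈ H, eval ((pt fun i => map (tht θ) (Fp i))^[k * n] x) (map (tht θ) h) = 0) →
      ∃ y ∈ P, ∃ c : ℂ, x = c • y) →
    ∀ (γ : Fin (N + 1) → ℤ_[p]) (lam : ℤ_[p]) (Y : ℕ → Fin (N + 1) → ℤ_[p]),
    γ ∈ Prim p (Fin (N + 1)) → (∀ i, pt Fp γ i = lam * γ i) → (∀ h ∈ H, eval γ h = 0) →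
    (jac Fp γ).charpoly.natTrailingDegree ≤ 1 → (∀ n, Y n ∈ Prim p (Fin (N + 1))) →
    (∀ n, Y (n + 1) = pt Fp (Y n)) → (∀ n, dl (Y n) γ ≤ ((p : ℝ)⁻¹) ^ (n + 1)) →
    GG p {n | ∀ h ∈ H, eval (Y n) h = 0}

/-- **JOB OLM** (0.9 h), `theorem olm : S_OLM`. The limit orbit. PROOF. Copy the proof of
`Pool.Agent.Q170.GP.orbit_dml` (`Et.lean`) without its étale part: `a, k, m, K, Φ t0` as there. If
`sq (Φ t0) m (resc x0 h) β n = 0` for all `h ∈ H`, `n` then `β' = x0 + p β ∈ Ω` is the point wanted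
(`hit`, `hβ1` for `P = X i` multiplied by `p`). -/
def S_OLM : Prop :=
  ∀ (p : ℕ) [Fact p.Prime], p ≠ 2 → ∀ (ι : Type) [Fintype ι] (F : ι → MvPolynomial ι ℤ_[p])
    (Ω : Set (ι → ℤ_[p])), IsClosed Ω → (∀ x ∈ Ω, pt F x ∈ Ω) →
    ∀ (H : Set (MvPolynomial ι ℤ_[p])), ∀ x ∈ Ω, ∃ a K : ℕ, 0 < K ∧ ∀ t, a ≤ t →
      (∃ μ, GapP p μ {n | ∀ h ∈ H, eval ((pt F)^[t + K * n] x) h = 0}) ∨
      ∃ β ∈ Ω, (∀ n, ∀ h ∈ H, eval ((pt F)^[K * n] β) h = 0) ∧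
        ∀ n i, (p : ℤ_[p]) ^ (n + 1) ∣ (pt F)^[t + K * n] x i - (pt F)^[K * n] β i

/-- **JOB CYL** (0.7 h), `theorem cyl : S_CYL`. PROOF. Infinite pigeonhole: `n1 < n2` with the same `y`,
`θβ(n1) = c1 y`, `θβ(n2) = c2 y`, `c1 ≠ 0` (primitive vectors are not `0`, `tht θ` is injective). If `β(n1) i0` is a unit
put `c = β(n2) i0 * (β(n1) i0)⁻¹`: `θ c = c2/c1`, so `β(n2) = c β(n1)`; `c` is a unit as `β(n2)` is primitive. -/
def S_CYL : Prop :=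
  ∀ (p : ℕ) [Fact p.Prime] (θ : ℚ_[p] →+* ℂ) (N : ℕ) (β : ℕ → Fin (N + 1) → ℤ_[p])
    (P : Finset (Fin (N + 1) → ℂ)), (∀ n, β n ∈ Prim p (Fin (N + 1))) →
    (∀ n, ∃ y ∈ P, ∃ c : ℂ, (fun i => tht θ (β n i)) = c • y) →
    ∃ (n1 l : ℕ) (c : ℤ_[p]), 0 < l ∧ IsUnit c ∧ ∀ i, β (n1 + l) i = c * β n1 i

/-- **JOB CLS** (1.5 h, helper256 does it), `theorem cls : S_CYG → S_CYL → S_GGC → S_ITF → S_CLS`. One class. PROOF.
`β n = (pt Fp)^[K n] β`; they satisfy the hypothesis of CYL with the `P` for `k = K`. `l, n1, c` from CYL. For `i < l` put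
`γ = β (n1 + i)`, `f = itF Fp (K l)`, `Y n = (pt Fp)^[t + K (n1 + i + l n)] x`. `pt f γ = β(n1 + l + i) =
c^(d^(K i)) γ`, and `β (n1 + i + l n)` is a multiple of `γ`, so `dl (Y n) γ ≤ p^(-(n+1))`. CYG for each `i`; GGC, fourth
part. -/
def S_CLS : Prop :=
  ∀ (p : ℕ) [Fact p.Prime], p ≠ 2 → ∀ (θ : ℚ_[p] →+* ℂ) (N d : ℕ), 1 ≤ d →
    ∀ Fp : Fin (N + 1) → MvPolynomial (Fin (N + 1)) ℤ_[p], (∀ i, (Fp i).IsHomogeneous d) →
    (∀ x ∈ Prim p (Fin (N + 1)), pt Fp x ∈ Prim p (Fin (N + 1))) →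
    ∀ H : Set (MvPolynomial (Fin (N + 1)) ℤ_[p]), (∀ h ∈ H, ∃ e : ℕ, h.IsHomogeneous e) →
    (∀ k : ℕ, 0 < k → ∃ P : Finset (Fin (N + 1) → ℂ), ∀ x : Fin (N + 1) → ℂ, x ≠ 0 →
      (∀ n, ∀ h ∈ H, eval ((pt fun i => map (tht θ) (Fp i))^[k * n] x) (map (tht θ) h) = 0) →
      ∃ y ∈ P, ∃ c : ℂ, x = c • y) →
    (∀ (γ : Fin (N + 1) → ℤ_[p]) (l : ℕ) (lam : ℤ_[p]), γ ∈ Prim p (Fin (N + 1)) → 0 < l →
      (∀ h ∈ H, eval γ h = 0) → (∀ i, (pt Fp)^[l] γ i = lam * γ i) →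
      (jac (itF Fp l) γ).charpoly.natTrailingDegree ≤ 1) →
    ∀ (x β : Fin (N + 1) → ℤ_[p]) (K t : ℕ), x ∈ Prim p (Fin (N + 1)) →
    β ∈ Prim p (Fin (N + 1)) → 0 < K → (∀ n, ∀ h ∈ H, eval ((pt Fp)^[K * n] β) h = 0) →
    (∀ n i, (p : ℤ_[p]) ^ (n + 1) ∣ (pt Fp)^[t + K * n] x i - (pt Fp)^[K * n] β i) →
    GG p {n | ∀ h ∈ H, eval ((pt Fp)^[t + K * n] x) h = 0}

/-- **JOB FIN** (1.5 h, helper256 does it), `theorem fin : S_OLM → S_CLS → S_GGC → S_GGS → S_ITF → S_FIN`. PROOF. The model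
over `ℤ_p` (`exists_model`, `exists_transfer`), OLM with `Ω` the primitive vectors, CLS for the classes with a limit
orbit in `V`, GGC, GGS. -/
def S_FIN : Prop :=
  ∀ (N d : ℕ), 1 ≤ d → ∀ F : Fin (N + 1) → MvPolynomial (Fin (N + 1)) ℂ,
    (∀ i, (F i).IsHomogeneous d) →
    (∀ x : Fin (N + 1) → ℂ, (∀ i, eval x (F i) = 0) → x = 0) →
    ∀ S : Set (MvPolynomial (Fin (N + 1)) ℂ), (∀ g ∈ S, ∃ e : ℕ, g.IsHomogeneous e) →
    (∀ k : ℕ, 0 < k → ∃ P : Finset (Fin (N + 1) → ℂ), ∀ x : Fin (N + 1) → ℂ, x ≠ 0 →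
      (∀ n, ∀ g ∈ S, eval ((pt F)^[k * n] x) g = 0) → ∃ y ∈ P, ∃ c : ℂ, x = c • y) →
    (∀ x : Fin (N + 1) → ℂ, x ≠ 0 → (∀ g ∈ S, eval x g = 0) → ∀ l : ℕ, 0 < l →
      (∃ c : ℂ, (pt F)^[l] x = c • x) → (jac (itF F l) x).charpoly.natTrailingDegree ≤ 1) →
    ∀ α : Fin (N + 1) → ℂ, α ≠ 0 →
    ∃ (T : Finset (ℕ × ℕ)) (M : ℕ) (b C : ℝ) (R : Set ℕ), 1 < b ∧ 0 < C ∧ Sparse M b C R ∧
      {n | ∀ g ∈ S, eval ((pt F)^[n] α) g = 0} =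
        {n | ∃ q ∈ T, ∃ m : ℕ, n = q.1 * m + q.2} ∪ R

end Pool.Agent.Q256.EC
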