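import Pool.Agent.Q256.EC.Stm

/-! # EC, job EXM: products and shifts of exponential polynomials -/

set_option autoImplicit false

namespace Pool.Agent.Q256.EC

theorem gen_mem {K : Type} [Field K] (μ : K) (hμ : μ ≠ 0) (i : ℕ) :
    (fun n : ℕ => μ ^ n * (n : K) ^ i) ∈ Ex K :=
  Submodule.subset_span ⟨μ, hμ, i, rfl⟩

/-- multiplication of sequences as a bilinear map -/
def mulL (K : Type) [Field K] : (ℕ → K) →ₗ[K] (ℕ → K) →ₗ[K] (ℕ → K) :=
  LinearMap.mk₂ K (fun a b n => a n * b n)
    (by intro a a' b; funext n; simp [add_mul])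
    (by intro c a b; funext n; simp [mul_assoc])
    (by intro a b b'; funext n; simp [mul_add])
    (by intro c a b; funext n; simp; ring)

/-- the shift of sequences -/
def shL (K : Type) [Field K] : (ℕ → K) →ₗ[K] (ℕ → K) where
  toFun a n := a (n + 1)
  map_add' a b := by funext n; simp
  map_smul' c a := by funext n; simp

theorem exm : S_EXM := by
  intro K _ a b ha hb
  refine ⟨?_, ?_, ?_⟩
  · have h : ∀ x ∈ Ex K, ∀ y ∈ Ex K, mulL K x y ∈ Ex K := by
      intro x hx y hy
      have h1 : mulL K x y ∈ Submodule.map₂ (mulL K) (Ex K) (Ex K) := Submodule.apply_mem_map₂ _ hx hy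
      have h2 : Submodule.map₂ (mulL K) (Ex K) (Ex K) ≤ Ex K := by
        unfold Ex
        rw [Submodule.map₂_span_span, Submodule.span_le]
        rintro _ ⟨s, ⟨μ, hμ, i, rfl⟩, t, ⟨ν, hν, j, rfl⟩, rfl⟩
        have h3 : mulL K (fun n : ℕ => μ ^ n * (n : K) ^ i) (fun n : ℕ => ν ^ n * (n : K) ^ j) =
            fun n : ℕ => (μ * ν) ^ n * (n : K) ^ (i + j) := by
          funext n
          simp only [mulL, LinearMap.mk₂_apply, mul_pow, pow_add]
          ring
        show mulL K (fun n : ℕ => μ ^ n * (n : K) ^ i) (fun n : ℕ => ν ^ n * (n : K) ^ j) ∈ Ex K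
        rw [h3]
        exact gen_mem (μ * ν) (mul_ne_zero hμ hν) (i + j)
      exact h2 h1
    exact h a ha b hb
  · have h2 : Submodule.map (shL K) (Ex K) ≤ Ex K := by
      unfold Ex
      rw [Submodule.map_span, Submodule.span_le]
      rintro _ ⟨s, ⟨μ, hμ, i, rfl⟩, rfl⟩
      have h3 : shL K (fun n : ℕ => μ ^ n * (n : K) ^ i) =
          ∑ j ∈ Finset.range (i + 1), (μ * (i.choose j : K)) • (fun n : ℕ => μ ^ n * (n : K) ^ j) := by
        funext n
        simp only [shL, LinearMap.coe_mk, AddHom.coe_mk, Finset.sum_apply, Pi.smul_apply, smul_eq_mul]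
        push_cast
        rw [add_pow, Finset.mul_sum]
        refine Finset.sum_congr rfl fun j _ => ?_
        rw [one_pow, pow_succ]
        ring
      rw [h3]
      exact Submodule.sum_mem _ fun j _ => Submodule.smul_mem _ _ (gen_mem μ hμ j)
    exact h2 (Submodule.mem_map_of_mem (f := shL K) ha)
  · intro c
    have h3 : (fun _ : ℕ => c) = c • (fun n : ℕ => (1 : K) ^ n * (n : K) ^ 0) := by
      funext n
      simp
    rw [h3]
    exact Submodule.smul_mem _ _ (gen_mem 1 one_ne_zero 0)

end Pool.Agent.Q256.EC
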