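import Pool.Agent.Q256.EC.Chain
import Pool.Agent.Q256.EC.Exm
import Pool.Agent.Q68.EC_WEC

/-! # Project EC: the assembled theorem -/

set_option autoImplicit false

namespace Pool.Agent.Q256.EC

theorem fin_all : S_FIN := chain exm Pool.Agent.Q68.EC.wec

theorem prog_all : ∀ (k : ℕ) (S : Set ℕ), 0 < k → (∀ n ∈ S, n + k ∈ S) →
    ∃ T : Finset (ℕ × ℕ), S = {n | ∃ q ∈ T, ∃ m : ℕ, n = q.1 * m + q.2} :=
  Pool.Agent.Q156.EC.ggs.2

end Pool.Agent.Q256.EC
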