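import Pool.Agent.Q256.EC.Cyg

set_option autoImplicit false

/-!
# One class of the orbit with a limit orbit in `V`
-/

namespace Pool.Agent.Q256.EC

open MvPolynomial Topology
open Filter (Tendsto atTop)
open Pool.Agent.H936R2 (pt jac)
open Pool.Agent.Q170.GP (GapP tht Prim Sparse)

theorem pt_scale {R ι : Type} [CommRing R] (F : ι → MvPolynomial ι R) (d : ℕ)
    (hF : ∀ i, (F i).IsHomogeneous d) (c : R) (x : ι → R) (n : ℕ) :
    (pt F)^[n] (fun i => c * x i) = fun i => c ^ d ^ n * (pt F)^[n] x i := by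
  induction n with
  | zero => simp
  | succ n ih =>
    rw [Function.iterate_succ_apply', ih, Function.iterate_succ_apply']
    funext i
    simp only [pt]
    have h2 := eval_scaleR (F i) d (hF i) (c ^ d ^ n) ((pt F)^[n] x)
    rw [h2, ← pow_mul, pow_succ]

theorem theta_iter' {p : ℕ} [Fact p.Prime] {N : ℕ} (θ : ℚ_[p] →+* ℂ)
    (Fp : Fin (N + 1) → MvPolynomial (Fin (N + 1)) ℤ_[p]) (x : Fin (N + 1) → ℤ_[p]) (n : ℕ) :
    (pt fun i => map (tht θ) (Fp i))^[n] (fun i => tht θ (x i)) =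
      fun i => tht θ ((pt Fp)^[n] x i) :=
  Pool.Agent.Q170.GP.theta_iter θ _ Fp (fun _ => rfl) x n

theorem dl_le_of_dvd {p : ℕ} [hp : Fact p.Prime] {N : ℕ} (Y β γ : Fin (N + 1) → ℤ_[p]) (c : ℤ_[p])
    (m : ℕ) (h1 : ∀ i, (p : ℤ_[p]) ^ m ∣ Y i - β i) (h2 : ∀ i, β i = c * γ i) :
    dl Y γ ≤ ((p : ℝ)⁻¹) ^ m := by
  have hp0 : (0 : ℝ) ≤ (p : ℝ)⁻¹ := by positivity
  refine (pi_norm_le_iff_of_nonneg (pow_nonneg hp0 m)).2 fun q => ?_
  have h3 : (p : ℤ_[p]) ^ m ∣ Y q.1 * γ q.2 - Y q.2 * γ q.1 := by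
    have e1 : Y q.1 * γ q.2 - Y q.2 * γ q.1 =
        (Y q.1 - β q.1) * γ q.2 - (Y q.2 - β q.2) * γ q.1 := by
      rw [h2, h2]
      ring
    rw [e1]
    exact dvd_sub (Dvd.dvd.mul_right (h1 _) _) (Dvd.dvd.mul_right (h1 _) _)
  have h4 := (PadicInt.norm_le_pow_iff_mem_span_pow _ m).2 (Ideal.mem_span_singleton.2 h3)
  rw [zpow_neg, zpow_natCast, ← inv_pow] at h4
  exact h4

theorem cls (hCYG : S_CYG) (hCYL : S_CYL) (hGGC : S_GGC) (hITF : S_ITF) : S_CLS := by
  intro p hp hp2 θ N d hd Fp hFp hprim H hH hfin hjac x β K t hx hβ hK hst hdvd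
  have hp1 : 2 ≤ p := hp.1.two_le
  obtain ⟨gg1, gg2, gg3, gg4⟩ := hGGC p hp1
  obtain ⟨it1, it2, it3⟩ := hITF
  have hprimn : ∀ n, ∀ y ∈ Prim p (Fin (N + 1)), (pt Fp)^[n] y ∈ Prim p (Fin (N + 1)) := by
    intro n
    induction n with
    | zero => exact fun y hy => hy
    | succ n ih =>
      intro y hy
      rw [Function.iterate_succ_apply']
      exact hprim _ (ih y hy)
  set β' : ℕ → Fin (N + 1) → ℤ_[p] := fun n => (pt Fp)^[K * n] β with hβ'
  have hshift : ∀ n k, (pt Fp)^[K * k] (β' n) = β' (n + k) := by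
    intro n k
    change (pt Fp)^[K * k] ((pt Fp)^[K * n] β) = (pt Fp)^[K * (n + k)] β
    rw [← Function.iterate_add_apply]
    congr 2
    ring
  obtain ⟨P, hP⟩ := hfin K hK
  have hne : ∀ y ∈ Prim p (Fin (N + 1)), (fun i => tht θ (y i)) ≠ 0 := by
    rintro y ⟨i, hi⟩ h0
    have h1 := congrFun h0 i
    have h2 : y i = 0 := Pool.Agent.Q170.GP.tht_injective θ (by rw [map_zero]; exact h1)
    rw [h2] at hi
    exact not_isUnit_zero hi
  obtain ⟨n1, l, c, hl, hcu, hc⟩ := hCYL p θ N β' P (fun n => hprimn _ _ hβ) (by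
    intro n
    refine hP _ (hne _ (hprimn _ _ hβ)) fun k h hh => ?_
    rw [theta_iter', Pool.Agent.Q170.GP.eval_theta, hshift, hst _ h hh, map_zero])
  have hKl : 0 < K * l := Nat.mul_pos hK hl
  -- all multiples
  have hmul : ∀ i n, ∃ c', ∀ j, β' (n1 + i + l * n) j = c' * β' (n1 + i) j := by
    intro i n
    induction n with
    | zero => exact ⟨1, fun j => by rw [mul_zero, add_zero, one_mul]⟩
    | succ n ih =>
      obtain ⟨c', hc'⟩ := ih
      have e1 : β' (n1 + l + (i + l * n)) = fun j => c ^ d ^ (K * (i + l * n)) *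
          β' (n1 + (i + l * n)) j := by
        rw [← hshift, show β' (n1 + l) = fun j => c * β' n1 j from funext hc, pt_scale Fp d hFp,
          hshift]
      refine ⟨c ^ d ^ (K * (i + l * n)) * c', fun j => ?_⟩
      have e2 : n1 + i + l * (n + 1) = n1 + l + (i + l * n) := by ring
      rw [e2, e1]
      simp only
      rw [← add_assoc, hc', mul_assoc]
  refine gg4 _ n1 l hl fun i hi => ?_
  set γ := β' (n1 + i) with hγ
  have hγP : γ ∈ Prim p (Fin (N + 1)) := hprimn _ _ hβ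
  set f := itF Fp (K * l) with hf
  have hptf : pt f = (pt Fp)^[K * l] := it1 _ _ Fp (K * l)
  have hfh : ∀ i, (f i).IsHomogeneous (d ^ (K * l)) := (it2 _ _ Fp d (K * l) hFp).1
  obtain ⟨lam, hlam⟩ := hmul i 1
  rw [mul_one] at hlam
  have hlam' : ∀ j, (pt Fp)^[K * l] γ j = lam * γ j := by
    intro j
    rw [hγ, hshift, hlam]
  have h1 := hCYG p hp2 θ N (d ^ (K * l)) (Nat.one_le_pow _ _ hd) f hfh (by
    intro y hy
    rw [hptf]
    exact hprimn _ _ hy) H hH (by
    intro k hk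
    obtain ⟨P', hP'⟩ := hfin (K * l * k) (Nat.mul_pos hKl hk)
    refine ⟨P', fun y hy hst' => hP' y hy fun n h hh => ?_⟩
    have h2 := hst' n h hh
    rw [it3 _ _ _ (tht θ) Fp (K * l), it1, ← Function.iterate_mul] at h2
    rw [show K * l * k * n = K * l * (k * n) by ring]
    exact h2) γ lam (fun n => (pt Fp)^[t + K * (n1 + i + l * n)] x) hγP (by
    intro j
    rw [hptf]
    exact hlam' j) (fun h hh => hst _ h hh) (hjac γ (K * l) lam hγP hKl (fun h hh => hst _ h hh) hlam')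
    (fun n => hprimn _ _ hx) (by
    intro n
    rw [hptf]
    change (pt Fp)^[t + K * (n1 + i + l * (n + 1))] x =
      (pt Fp)^[K * l] ((pt Fp)^[t + K * (n1 + i + l * n)] x)
    rw [← Function.iterate_add_apply,
      show t + K * (n1 + i + l * (n + 1)) = K * l + (t + K * (n1 + i + l * n)) by ring]) (by
    intro n
    obtain ⟨c', hc'⟩ := hmul i n
    refine dl_le_of_dvd _ (β' (n1 + i + l * n)) γ c' (n + 1) (fun j => ?_) hc'
    have h3 := hdvd (n1 + i + l * n) j
    refine (pow_dvd_pow _ ?_).trans h3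
    have h4 : n ≤ l * n := Nat.le_mul_of_pos_left n hl
    omega)
  exact h1

end Pool.Agent.Q256.EC
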