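import Pool.Agent.Q256.EC.Stm

set_option autoImplicit false

/-!
# The theorem near a cycle: assembly
-/

namespace Pool.Agent.Q256.EC

open MvPolynomial Topology
open Filter (Tendsto atTop)
open Pool.Agent.H936R2 (pt jac)
open Pool.Agent.Q170.GP (GapP tht Prim Sparse)

theorem eval_scaleR {R ι : Type} [CommRing R] (P : MvPolynomial ι R) (e : ℕ)
    (hP : P.IsHomogeneous e) (c : R) (x : ι → R) :
    eval (fun i => c * x i) P = c ^ e * eval x P := by
  rw [eval_eq, eval_eq, Finset.mul_sum]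
  apply Finset.sum_congr rfl
  intro κ hκ
  have hdeg : κ.degree = e := by
    have := hP (mem_support_iff.1 hκ)
    rw [Finsupp.degree_eq_weight_one]; exact this
  rw [show (∏ i ∈ κ.support, (c * x i) ^ κ i) = c ^ e * ∏ i ∈ κ.support, x i ^ κ i by
    simp_rw [mul_pow]
    rw [Finset.prod_mul_distrib, Finset.prod_pow_eq_pow_sum, ← hdeg]
    rfl]
  ring

theorem eval_zero_of_dl {p : ℕ} [hp : Fact p.Prime] {N : ℕ} (Y γ : Fin (N + 1) → ℤ_[p])
    (hγ : γ ∈ Prim p (Fin (N + 1))) (h0 : dl Y γ = 0) (h : MvPolynomial (Fin (N + 1)) ℤ_[p])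
    (e : ℕ) (he : h.IsHomogeneous e) (hh : eval γ h = 0) : eval Y h = 0 := by
  obtain ⟨i, hi⟩ := hγ
  have h1 : (fun q : Fin (N + 1) × Fin (N + 1) => Y q.1 * γ q.2 - Y q.2 * γ q.1) = 0 :=
    norm_eq_zero.1 h0
  have h2 : (fun a => γ i * Y a) = fun a => Y i * γ a := by
    funext a
    have := congrFun h1 (a, i)
    simp only [Pi.zero_apply] at this
    linear_combination this
  have h3 := eval_scaleR h e he (γ i) Y
  rw [h2, eval_scaleR h e he (Y i) γ, hh, mul_zero] at h3
  have h4 : γ i ^ e ≠ 0 := (hi.pow e).ne_zero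
  exact (mul_eq_zero.1 h3.symm).resolve_left h4

theorem cyg (hDC1 : S_DC1) (hDC2 : S_DC2) (hSMS : S_SMS) (hSPD : S_SPD) (hIDL : S_IDL)
    (hCHT : S_CHT) (hORB : S_ORB) (hGSB : S_GSB) (hGGC : S_GGC) : S_CYG := by
  intro p hp hp2 θ N D hD Fp hFp hprim H hH hfin γ lam Y hγ hlam hγH hjac hY hrec hdl
  have hp1 : 2 ≤ p := hp.1.two_le
  set σ : ℝ := (p : ℝ)⁻¹ with hσ
  have hpR : (1 : ℝ) < p := by exact_mod_cast hp1
  have hσ0 : 0 < σ := inv_pos.2 (by linarith)
  have hσ1 : σ < 1 := inv_lt_one_of_one_lt₀ hpR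
  have hdl1 : ∀ n, dl (Y n) γ < 1 := fun n =>
    lt_of_le_of_lt (hdl n) (pow_lt_one₀ hσ0.le hσ1 (Nat.succ_ne_zero n))
  obtain ⟨i0, g, u, w, horb, hw, hG, hlin⟩ := hCHT p N D hD Fp hFp hprim γ lam Y hγ hlam hY hrec hdl1
  obtain ⟨-, Dc, hDc, hLip⟩ := hORB _ _ g u w horb
  set δ : ℕ → ℝ := fun n => dl (Y n) γ with hδ
  have hδw : (fun n => ‖w n‖) = δ := funext hw
  have hδ0 : ∀ n, 0 ≤ δ n := fun n => norm_nonneg _
  have hδL : ∀ n, δ (n + 1) ≤ Dc * δ n := by
    intro n
    have := hLip n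
    rwa [hw, hw] at this
  have hgeo : Tendsto (fun n : ℕ => σ ^ (n + 1)) atTop (𝓝 0) :=
    (tendsto_pow_atTop_nhds_zero_of_lt_one hσ0.le hσ1).comp (Filter.tendsto_add_atTop_nat 1)
  have htend : Tendsto δ atTop (𝓝 0) := squeeze_zero hδ0 hdl hgeo
  obtain ⟨gg1, gg2, gg3, gg4⟩ := hGGC p hp1
  obtain ⟨gs1, gs2, gs3⟩ := hGSB p hp1
  obtain ⟨sm1, sm2⟩ := hSMS
  by_cases hz : ∃ n, δ n = 0
  · obtain ⟨n0, hn0⟩ := hz
    have hz' : ∀ n, n0 ≤ n → δ n = 0 := by
      intro n hn
      induction n, hn using Nat.le_induction with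
      | base => exact hn0
      | succ n hn ih =>
        have h1 := hδL n
        rw [ih, mul_zero] at h1
        exact le_antisymm h1 (hδ0 _)
    refine gg3 _ n0 fun n hn h hh => ?_
    obtain ⟨e, he⟩ := hH h hh
    exact eval_zero_of_dl (Y n) γ hγ (hz' n hn) h e he (hγH h hh)
  push Not at hz
  have hpos : ∀ n, 0 < δ n := fun n => lt_of_le_of_ne (hδ0 n) (Ne.symm (hz n))
  have hwne : ∀ n, w n ≠ 0 := by
    intro n h0
    have h1 := hw n
    rw [h0, norm_zero] at h1
    exact hz n h1.symm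
  by_cases hsup : δ ∈ Sm1 σ
  · have hD2 : ∀ h ∈ H, (∃ n0, ∀ n, n0 ≤ n → eval (Y n) h ≠ 0) ∨
        (fun n => ‖eval (Y n) h‖) ∈ Sm2 δ := by
      intro h hh
      obtain ⟨e, he⟩ := hH h hh
      obtain ⟨h', hh'⟩ := hG h e he
      rcases hDC2 _ _ g u w horb (hlin.trans hjac) hwne σ hσ0 hσ1 (by rwa [hδw]) h' with
        ⟨n0, h1⟩ | h1
      · left
        refine ⟨n0, fun n hn h0 => h1 n hn (norm_eq_zero.1 ?_)⟩
        rw [hh' n, h0, norm_zero]
      · right
        rw [hδw] at h1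
        have h2 : (fun n => ‖eval (w n) h'‖) = fun n => ‖eval (Y n) h‖ := funext hh'
        rwa [h2] at h1
    by_cases hall : ∀ h ∈ H, (fun n => ‖eval (Y n) h‖) ∈ Sm2 δ
    · exfalso
      obtain ⟨P, hP⟩ := hfin 1 one_pos
      obtain ⟨e, he⟩ := hIDL p θ N D 1 Fp hFp H hH P hP γ Y hγ hY (by simpa using hrec) htend
        (Sm2 δ) (sm2 δ Dc hDc hpos hδL) hall
      obtain ⟨C, hC⟩ := he (e + 1)
      have h1 : ∀ n, 1 ≤ C * δ n := by
        intro n
        have h2 := hC n
        rw [abs_of_nonneg (pow_nonneg (hδ0 n) e), pow_succ, ← mul_assoc] at h2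
        have h3 : 0 < δ n ^ e := pow_pos (hpos n) e
        have h4 : δ n ^ e * 1 ≤ δ n ^ e * (C * δ n) := by
          rw [mul_one]
          calc δ n ^ e = dl (Y n) γ ^ e := rfl
            _ ≤ _ := h2
            _ = _ := by ring
        exact le_of_mul_le_mul_left h4 h3
      have h5 : Tendsto (fun n => C * δ n) atTop (𝓝 (C * 0)) := htend.const_mul C
      rw [mul_zero] at h5
      exact absurd (ge_of_tendsto' h5 h1) (by norm_num)
    · push Not at hall
      obtain ⟨h, hh, hne⟩ := hall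
      obtain ⟨n0, hn0⟩ := (hD2 h hh).resolve_right hne
      refine gg2 _ ((Set.finite_lt_nat n0).subset fun n hn => ?_)
      by_contra hcon
      exact hn0 n (not_lt.1 hcon) (hn h hh)
  · obtain ⟨m, hm, hcl⟩ := hDC1 p hp2 _ g u w horb σ σ hσ0 hσ1 (by
      intro n
      rw [hw n]
      refine (hdl n).trans (le_of_eq ?_)
      rw [pow_succ]
      ring)
    refine gg4 _ 0 m hm fun c hc => ?_
    have hidx : ∀ n, 0 + c + m * n = c + m * n := fun n => by omega
    by_cases hgap : ∃ h ∈ H, ∃ μ, GapP p μ {n | eval (Y (c + m * n)) h = 0}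
    · obtain ⟨h, hh, μ, hμ⟩ := hgap
      refine gg1 μ _ (gs1 μ _ _ ?_ hμ)
      intro n hn
      have h1 := hn h hh
      rw [hidx] at h1
      exact h1
    · exfalso
      apply hsup
      push Not at hgap
      obtain ⟨P, hP⟩ := hfin m hm
      have hiter : ∀ j n, Y (n + j) = (pt Fp)^[j] (Y n) := by
        intro j
        induction j with
        | zero => intro n; rfl
        | succ j ih =>
          intro n
          rw [Function.iterate_succ_apply', ← ih, ← hrec]
          rfl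
      obtain ⟨e, he⟩ := hIDL p θ N D m Fp hFp H hH P hP γ (fun n => Y (c + m * n)) hγ
        (fun n => hY _) (by
          intro n
          have h1 := hiter m (c + m * n)
          have h2 : c + m * (n + 1) = c + m * n + m := by ring
          rw [h2, h1]) (htend.comp (Filter.tendsto_atTop_mono (fun n => by
            have h3 : n ≤ m * n := Nat.le_mul_of_pos_left n hm
            change n ≤ c + m * n
            omega) Filter.tendsto_id)) (Sm1 σ) (sm1 σ hσ0 hσ1) (by
          intro h hh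
          obtain ⟨e, he⟩ := hH h hh
          obtain ⟨h', hh'⟩ := hG h e he
          rcases hcl c h' with ⟨μ, hμ⟩ | h1
          · exfalso
            refine hgap h hh μ ?_
            have h2 : {n | eval (w (c + m * n)) h' = 0} = {n | eval (Y (c + m * n)) h = 0} := by
              ext n
              simp only [Set.mem_ofPred_eq]
              rw [← norm_eq_zero, hh', norm_eq_zero]
            rwa [h2] at hμ
          · have h2 : (fun n => ‖eval (w (c + m * n)) h'‖) = fun n => ‖eval (Y (c + m * n)) h‖ :=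
              funext fun n => hh' _
            rwa [h2] at h1)
      exact hSPD δ Dc σ c m e hσ0 hσ1 hm hδ0 hδL he

end Pool.Agent.Q256.EC
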