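import Pool.Agent.Q256.EC.Cls

set_option autoImplicit false

/-!
# The theorem over the complex numbers: assembly
-/

namespace Pool.Agent.Q256.EC

open MvPolynomial Topology
open Filter (Tendsto atTop)
open Pool.Agent.H936R2 (pt jac)
open Pool.Agent.Q170.GP (GapP tht Prim Sparse tht_injective exists_finite_sub exists_model
  exists_transfer isClosed_prim eval_theta)

theorem homog_of_map {R R' ι : Type} [CommRing R] [CommRing R'] (Θ : R →+* R')
    (hΘ : Function.Injective Θ) (h : MvPolynomial ι R) (e : ℕ) (he : (map Θ h).IsHomogeneous e) :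
    h.IsHomogeneous e := by
  intro κ hκ
  apply he
  rw [coeff_map]
  intro h0
  exact hκ (hΘ (by rw [h0, map_zero]))

theorem jac_theta {p : ℕ} [Fact p.Prime] {N : ℕ} (θ : ℚ_[p] →+* ℂ)
    (f : Fin (N + 1) → MvPolynomial (Fin (N + 1)) ℤ_[p]) (γ : Fin (N + 1) → ℤ_[p]) :
    jac (fun i => map (tht θ) (f i)) (fun i => tht θ (γ i)) = (jac f γ).map (tht θ) := by
  ext1 i j
  simp only [jac, Matrix.map_apply]
  rw [pderiv_map, eval_theta]

theorem natTrailingDegree_map_inj {R R' : Type} [CommRing R] [CommRing R'] (Θ : R →+* R')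
    (hΘ : Function.Injective Θ) (P : Polynomial R) :
    (P.map Θ).natTrailingDegree = P.natTrailingDegree := by
  unfold Polynomial.natTrailingDegree Polynomial.trailingDegree
  rw [Polynomial.support_map_of_injective P hΘ]

theorem fin (hOLM : S_OLM) (hCLS : S_CLS) (hGGC : S_GGC) (hGGS : S_GGS) (hITF : S_ITF) :
    S_FIN := by
  classical
  intro N d hd F hF hF0 S hS hfin hjac α hα
  obtain ⟨S', hS1, hS2⟩ := exists_finite_sub S
  obtain ⟨p, hp, hB, θ, Fp, hFp, hs, hT, hprim⟩ := exists_model F hF0 S' (Finset.univ.image α) 2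
  have hp1 : 2 ≤ p := hp.1.two_le
  have hp2 : p ≠ 2 := by omega
  obtain ⟨x, hx, hret⟩ := exists_transfer F hF θ Fp hFp S hS S' hS1 hS2 hT α hα (fun i => by
    obtain ⟨y, hy⟩ := hs (α i) (Finset.mem_image_of_mem _ (Finset.mem_univ _))
    exact ⟨(y : ℚ_[p]), hy⟩)
  obtain ⟨gg1, gg2, gg3, gg4⟩ := hGGC p hp1
  obtain ⟨it1, it2, it3⟩ := hITF
  have hFp' : (fun i => map (tht θ) (Fp i)) = F := funext hFp
  set H : Set (MvPolynomial (Fin (N + 1)) ℤ_[p]) := {h | map (tht θ) h ∈ S'} with hH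
  have hHh : ∀ h ∈ H, ∃ e : ℕ, h.IsHomogeneous e := by
    intro h hh
    obtain ⟨e, he⟩ := hS _ (hS1 hh)
    exact ⟨e, homog_of_map (tht θ) (tht_injective θ) h e he⟩
  have hFph : ∀ i, (Fp i).IsHomogeneous d := fun i =>
    homog_of_map (tht θ) (tht_injective θ) _ d (by rw [hFp]; exact hF i)
  have hne : ∀ y ∈ Prim p (Fin (N + 1)), (fun i => tht θ (y i)) ≠ 0 := by
    rintro y ⟨i, hi⟩ h0
    have h1 := congrFun h0 i
    have h2 : y i = 0 := tht_injective θ (by rw [map_zero]; exact h1)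
    rw [h2] at hi
    exact not_isUnit_zero hi
  -- vanishing of the equations of `V` from those in `H`
  have hvan : ∀ z : Fin (N + 1) → ℂ, (∀ h ∈ H, eval z (map (tht θ) h) = 0) →
      ∀ g ∈ S, eval z g = 0 := by
    intro z hz g hg
    refine hS2 z (fun g' hg' => ?_) g hg
    obtain ⟨h, hh⟩ := hT g' hg'
    rw [← hh]
    exact hz h (by rw [hH, Set.mem_ofPred_eq, hh]; exact hg')
  obtain ⟨a, K, hK, holm⟩ := hOLM p hp2 (Fin (N + 1)) Fp (Prim p (Fin (N + 1))) isClosed_prim hprim
    H x hx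
  have hGG : GG p {n | ∀ h ∈ H, eval ((pt Fp)^[n] x) h = 0} := by
    refine gg4 _ a K hK fun j hj => ?_
    rcases holm (a + j) (Nat.le_add_right _ _) with ⟨μ, hμ⟩ | ⟨β, hβ, hst, hdvd⟩
    · exact gg1 μ _ hμ
    · refine hCLS p hp2 θ N d hd Fp hFph hprim H hHh (fun k hk => ?_) (fun γ l lam hγ hl hγH hlam => ?_)
        x β K (a + j) hx hβ hK hst hdvd
      · obtain ⟨P, hP⟩ := hfin k hk
        refine ⟨P, fun z hz hst' => hP z hz fun n g hg => ?_⟩
        rw [hFp'] at hst'
        exact hvan _ (hst' n) g hg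
      · have h1 := hjac (fun i => tht θ (γ i)) (hne γ hγ) (hvan _ fun h hh => by
          rw [eval_theta, hγH h hh, map_zero]) l hl ⟨tht θ lam, by
            rw [← hFp', theta_iter']
            funext i
            rw [hlam, map_mul]
            rfl⟩
        rw [← hFp', ← it3, jac_theta, Matrix.charpoly_map,
          natTrailingDegree_map_inj _ (tht_injective θ)] at h1
        exact h1
  rw [hret]
  exact hGGS.1 p hp1 _ hGG

end Pool.Agent.Q256.EC
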