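import Pool.Agent.Q190.EC.EXS
import Pool.Agent.Q190.EC.WED
import Pool.Agent.Q190.EC.WEL
import Pool.Agent.Q124.EC_WEM
import Pool.Agent.Q124.EC_WEV
import Pool.Agent.Q124.EC_POL
import Pool.Agent.Q124.EC_RAT
import Pool.Agent.Q210.EC.Orb
import Pool.Agent.Q156.EC_UNP
import Pool.Agent.Q156.EC_ANM
import Pool.Agent.Q65.EC_ANP
import Pool.Agent.Q156.EC_EXC
import Pool.Agent.Q195.EC.GDV
import Pool.Agent.Q149.EC_GAN
import Pool.Agent.Q154.EC_FLD
import Pool.Agent.Q149.EC_DC1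
import Pool.Agent.Q96.EC.JPrj
import Pool.Agent.Q96.EC.JCon
import Pool.Agent.Q251.EC_TEM
import Pool.Agent.Q210.EC.Te
import Pool.Agent.Q154.EC_TES
import Pool.Agent.Q262.EC_DC2
import Pool.Agent.Q195.EC.SMS
import Pool.Agent.Q156.EC_SPD
import Pool.Agent.Q262.EC_NUL
import Pool.Agent.Q179.EC_IPW
import Pool.Agent.Q298.EC.Low
import Pool.Agent.Q298.EC.Idl
import Pool.Agent.Q256.EC.Chp
import Pool.Agent.Q96.EC.JChu
import Pool.Agent.Q96.EC.JCht
import Pool.Agent.Q195.EC.GSB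
import Pool.Agent.Q154.EC_GGC
import Pool.Agent.Q156.EC_GGS
import Pool.Agent.Q154.EC_ITF
import Pool.Agent.Q156.EC_OLM
import Pool.Agent.Q275.EC_CYL
import Pool.Agent.Q256.EC.Cyg
import Pool.Agent.Q256.EC.Cls
import Pool.Agent.Q256.EC.Fin

/-! # Project EC: the chain of the lemmas -/

set_option autoImplicit false

namespace Pool.Agent.Q256.EC

theorem ggc_all : S_GGC := Pool.Agent.Q154.EC.ggc Pool.Agent.Q195.EC.gsb

theorem chain (exm : S_EXM) (wec : S_EXC → S_WEC) : S_FIN := by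
  have pol : S_POL := Pool.Agent.Q124.EC_POL.pol
  have rat : S_RAT := Pool.Agent.Q124.EC_RAT.rat
  have wed : S_WED := Pool.Agent.Q190.EC.wed Pool.Agent.Q190.EC.exs
  have wel : S_WEL := Pool.Agent.Q190.EC.wel exm wed
  have wem : S_WEM := Pool.Agent.Q124.EC_WEM.wem exm
  have wev : S_WEV := Pool.Agent.Q124.EC_WEV.wev wem
  have orb : S_ORB := Pool.Agent.Q210.EC.orb pol rat
  have weo : S_WEO := Pool.Agent.Q210.EC.weo orb wel wem wev
  have anm : S_ANM := Pool.Agent.Q156.EC.anm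
  have anp : S_ANP := Pool.Agent.Q65.EC.anp anm
  have exc : S_EXC := Pool.Agent.Q156.EC.exc anm anp
  have gan : S_GAN := Pool.Agent.Q149.EC_GAN.gan Pool.Agent.Q195.EC.gdv
  have dc1 : S_DC1 := Pool.Agent.Q149.EC_DC1.dc1 weo wev Pool.Agent.Q156.EC.unp (wec exc) gan Pool.Agent.Q154.EC.fld
  have con : S_CON := Pool.Agent.Q96.EC.JCon.con pol orb
  have tem : S_TEM := Pool.Agent.Q251.EC_TEM.tem
  have tev : S_TEV := Pool.Agent.Q210.EC.tev tem
  have tes : S_TES := Pool.Agent.Q154.EC.tes tem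
  have tei : S_TEI := Pool.Agent.Q210.EC.tei pol orb tem tev tes
  have dc2 : S_DC2 := Pool.Agent.Q262.EC_DC2.dc2 Pool.Agent.Q96.EC.JPrj.prj con tei tev
  have ipw : S_IPW := Pool.Agent.Q179.EC.ipw Pool.Agent.Q262.EC_NUL.nul
  have low : S_LOW := low pol
  have idl : S_IDL := idl ipw low
  have cht : S_CHT := Pool.Agent.Q96.EC.JCht.cht Pool.Agent.Q256.EC.Chp.chp Pool.Agent.Q96.EC.JChu.chu
  have cyg : S_CYG := cyg dc1 dc2 Pool.Agent.Q195.EC.sms Pool.Agent.Q156.EC.spd idl cht orb Pool.Agent.Q195.EC.gsb ggc_all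
  have cls : S_CLS := cls cyg Pool.Agent.Q275.EC_CYL.cyl ggc_all Pool.Agent.Q154.EC.itf
  exact fin Pool.Agent.Q156.EC.olm cls ggc_all Pool.Agent.Q156.EC.ggs Pool.Agent.Q154.EC.itf

end Pool.Agent.Q256.EC
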